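import Mathlib
import Pool.Agent.Lib.MP_4ffbf9_nt.JW.Large

/-!
The gap between two products whose scaled factors lie in one window, for moving scales.
-/

set_option autoImplicit false

namespace Pool.Agent.Lib.MP_4ffbf9_nt.JM

open Finset

theorem rat_cheap (ι : Type) [Fintype ι] [DecidableEq ι] {J : ℝ} (hJ : 1 ≤ J) : ∃ c : ℝ, 0 < c ∧
    ∀ (r s : ι → ℕ) (a : ι → ℝ) (b : ι → ℤ) (o : ι) (N : Finset ι) (B : ℝ),
      (∀ i, 0 < r i ∧ 0 < s i ∧ 1 ≤ a i ∧ (r i : ℝ) ≤ Real.exp (a i) ∧ (s i : ℝ) ≤ Real.exp (a i)) →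
      3 ≤ B → (∀ i, |(b i : ℝ)| ≤ B) → o ∉ N →
      (∀ i ∈ N, a i ≤ a o ∧ |Real.log ((r i : ℝ) / s i)| ≤ B * Real.exp (-(a i / J))) →
      ∑ i, (b i : ℝ) * Real.log ((r i : ℝ) / s i) ≠ 0 →
      Real.exp (-(c * (∏ i ∈ Nᶜ, a i) * Real.log B ^ (2 * N.card + 2))) ≤
        |∑ i, (b i : ℝ) * Real.log ((r i : ℝ) / s i)| := by
  obtain ⟨d, ρ, hρ, hN⟩ := MA.num (Fintype.card ι) 1
  obtain ⟨c, hc, h⟩ := MA.main1 d (Fintype.card ι)
  refine ⟨c * (ρ * J) ^ Fintype.card ι, by positivity, fun r s a b o N B ha hB hb ho hn hΛ => ?_⟩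
  obtain ⟨F, dn, hF, h1⟩ := hN ι (fun i => ((Real.log ((r i : ℝ) / s i) : ℝ) : ℂ)) a le_rfl
    fun i => SP.bk_rat_data (ha _).1 (ha _).2.1 (ha _).2.2.1 (ha _).2.2.2.1 (ha _).2.2.2.2
  have hs : ∑ i, ((b i : ℤ) : ℂ) * ((Real.log ((r i : ℝ) / s i) : ℝ) : ℂ) =
      ((∑ i, (b i : ℝ) * Real.log ((r i : ℝ) / s i) : ℝ) : ℂ) := by
    simp only [Complex.ofReal_sum, Complex.ofReal_mul, Complex.ofReal_intCast]
  have key := h F ι dn _ (fun i => ρ * a i) (fun _ => ρ * J) b o N B hF le_rfl h1 ho hB hb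
    (fun i hi => ⟨mul_le_mul_of_nonneg_left (hn i hi).1 (by linarith), by nlinarith, by
      rw [mul_div_mul_left _ _ (by linarith), Complex.norm_real]
      exact (hn i hi).2⟩) (by rw [hs, Complex.ofReal_ne_zero]; exact hΛ)
  rw [hs, Complex.norm_real] at key
  refine le_trans (Real.exp_le_exp.2 (neg_le_neg ?_)) key
  refine mul_le_mul_of_nonneg_right ?_ (pow_nonneg (Real.log_nonneg (by linarith)) _)
  rw [prod_mul_distrib, prod_const, prod_const, ← card_compl_add_card N, pow_add, mul_assoc c]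
  have : 0 ≤ ∏ i ∈ Nᶜ, a i := prod_nonneg fun i _ => by linarith [(ha i).2.2.1]
  rw [mul_right_comm]
  gcongr
  nlinarith

/-- `u` lies in the window around `h`. -/
def Win (J h u : ℕ) : Prop := |(u : ℝ) / h - 1| ^ J * h ≤ 1

variable {J : ℕ}

theorem Win.half {h u : ℕ} (hh : J ≠ 0 ∧ 2 ^ J ≤ h) (hu : Win J h u) :
    |(u : ℝ) / h - 1| ≤ 1 / 2 := by
  have h1 : (2 : ℝ) ^ J ≤ h := by exact_mod_cast hh.2
  refine le_of_pow_le_pow_left₀ hh.1 (by norm_num) ?_
  rw [one_div, inv_pow, ← one_div, le_div_iff₀ (by positivity)]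
  exact (mul_le_mul_of_nonneg_left h1 (by positivity)).trans hu

theorem two_le {h : ℕ} (hh : J ≠ 0 ∧ 2 ^ J ≤ h) : 2 ≤ h := (Nat.le_self_pow hh.1 2).trans hh.2

theorem Win.pos {h u : ℕ} (hh : J ≠ 0 ∧ 2 ^ J ≤ h) (hu : Win J h u) :
    0 < u ∧ h ≤ 2 * u ∧ u ≤ 2 * h := by
  have := two_le hh
  have h0 : (0 : ℝ) < h := by exact_mod_cast (by omega : 0 < h)
  obtain ⟨h1, h2⟩ := abs_le.1 (hu.half hh)
  rw [le_sub_iff_add_le, le_div_iff₀ h0] at h1
  rw [sub_le_iff_le_add, div_le_iff₀ h0] at h2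
  have h3 : h ≤ 2 * u := by exact_mod_cast (by linarith : (h : ℝ) ≤ 2 * u)
  exact ⟨by omega, h3, by exact_mod_cast (by linarith : (u : ℝ) ≤ 2 * h)⟩

theorem Win.log {h u : ℕ} {B : ℝ} (hh : J ≠ 0 ∧ 2 ^ J ≤ h) (hu : Win J h u) (hB : 12 ≤ B) :
    |Real.log ((u : ℝ) / h)| ≤ B * Real.exp (-((1 + Real.log (2 * h)) / J)) := by
  have := two_le hh
  have h0 : (0 : ℝ) < h := by exact_mod_cast (by omega : 0 < h)
  have h1 := abs_le.1 (hu.half hh)
  unfold Win at hu
  generalize (u : ℝ) / h = t at *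
  have t0 : 0 < t := by linarith
  have h3 : |Real.log t| ≤ 2 * |t - 1| := by
    rw [abs_le]
    constructor
    · have h5 : t⁻¹ ≤ 1 + 2 * |t - 1| := by
        rw [inv_le_iff_one_le_mul₀ t0]
        nlinarith [neg_abs_le (t - 1), abs_nonneg (t - 1)]
      linarith [Real.one_sub_inv_le_log_of_pos t0]
    · linarith [Real.log_le_sub_one_of_pos t0, le_abs_self (t - 1), abs_nonneg (t - 1)]
  refine h3.trans (le_of_pow_le_pow_left₀ hh.1 (by positivity) ?_)
  have h4 : Real.exp (-((1 + Real.log (2 * h)) / J)) ^ J = (Real.exp 1 * (2 * h))⁻¹ := by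
    rw [← Real.exp_nat_mul, mul_neg, mul_div_cancel₀ _ (Nat.cast_ne_zero.2 hh.1), Real.exp_neg,
      Real.exp_add, Real.exp_log (by positivity)]
  rw [mul_pow, mul_pow, h4, ← div_eq_mul_inv, le_div_iff₀ (by positivity)]
  calc _ = 2 ^ J * (2 * Real.exp 1) * (|t - 1| ^ J * h) := by ring
    _ ≤ 2 ^ J * 6 ^ J * 1 := by
      gcongr
      exact le_trans (by linarith [Real.exp_one_lt_three]) (le_self_pow₀ (by norm_num) hh.1)
    _ = 12 ^ J := by rw [mul_one, ← mul_pow]; norm_num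
    _ ≤ _ := by gcongr

theorem gap (R : ℕ) (hJ : J ≠ 0) : ∃ κ : ℝ, 0 < κ ∧ ∀ (h : ℕ) (B : ℝ) (u a u' m : Fin R → ℕ) (r s : Fin 3 → ℕ)
    (α : Fin 3 → ℝ) (b : Fin 3 → ℤ), 2 ^ J ≤ h → 12 ≤ B → ((∑ i, a i : ℕ) : ℝ) ≤ B →
      ((∑ i, m i : ℕ) : ℝ) ≤ B → (∀ i, Win J h (u i)) → (∀ i, Win J h (u' i)) →
      (∀ i, (0 < r i ∧ 0 < s i ∧ 1 ≤ α i ∧ (r i : ℝ) ≤ Real.exp (α i) ∧
        (s i : ℝ) ≤ Real.exp (α i)) ∧ |(b i : ℝ)| ≤ B) → 1 + Real.log (2 * h) ≤ α 0 → ∀ Λ, 0 < Λ →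
      Λ = ∑ i, (b i : ℝ) * Real.log ((r i : ℝ) / s i) +
        (∑ i, -(a i : ℝ) * Real.log ((u i : ℝ) / h) + ∑ i, (m i : ℝ) * Real.log ((u' i : ℝ) / h)) →
      Real.exp (-(κ * (α 0 * α 1 * α 2) * Real.log B ^ (4 * R + 2))) ≤ Λ := by
  obtain ⟨κ, hκ, H⟩ := rat_cheap (Fin 3 ⊕ (Fin R ⊕ Fin R))
    (J := J) (by exact_mod_cast Nat.pos_of_ne_zero hJ)
  refine ⟨κ, hκ, fun h B u a u' m r s α b hh hB ha hm hu hu' hr h0 Λ hΛ hs => ?_⟩
  replace hh := And.intro hJ hh
  have := two_le hh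
  have h1 : (2 : ℝ) ≤ h := by exact_mod_cast this
  have hL : 0 ≤ Real.log (2 * h) := Real.log_nonneg (by linarith)
  have hE : 2 * (h : ℝ) ≤ Real.exp (1 + Real.log (2 * h)) := by
    rw [Real.exp_add, Real.exp_log (by positivity)]
    exact le_mul_of_one_le_left (by positivity) (Real.one_le_exp zero_le_one)
  have ok : ∀ {u : ℕ}, Win J h u → 0 < u ∧ 0 < h ∧ 1 ≤ 1 + Real.log (2 * h) ∧
      (u : ℝ) ≤ Real.exp (1 + Real.log (2 * h)) ∧ (h : ℝ) ≤ Real.exp (1 + Real.log (2 * h)) :=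
    fun hu => ⟨(hu.pos hh).1, by omega, by linarith,
      le_trans (by exact_mod_cast (hu.pos hh).2.2) hE, by linarith⟩
  have key := H (Sum.elim r (Sum.elim u u')) (Sum.elim s fun _ => h)
    (Sum.elim α fun _ => 1 + Real.log (2 * h))
    (Sum.elim b (Sum.elim (fun i => -(a i : ℤ)) fun i => m i))
    (Sum.inl 0) (univ.map Function.Embedding.inr) B
    (by
      rintro (j | j | j)
      exacts [(hr j).1, ok (hu j), ok (hu' j)]) (by linarith)
    (by
      rintro (j | j | j)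
      · exact (hr j).2
      · refine le_trans ?_ ha
        simpa using single_le_sum (f := fun i => (a i : ℝ)) (fun _ _ => by positivity) (mem_univ j)
      · refine le_trans ?_ hm
        simpa using single_le_sum (f := fun i => (m i : ℝ)) (fun _ _ => by positivity) (mem_univ j))
    (by simp)
    (by
      intro i hi
      obtain ⟨j, -, rfl⟩ := mem_map.1 hi
      refine ⟨h0, ?_⟩
      rcases j with j | j
      exacts [(hu j).log hh hB, (hu' j).log hh hB])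
  have e2 : (univ.map (Function.Embedding.inr : (Fin R ⊕ Fin R) ↪ Fin 3 ⊕ (Fin R ⊕ Fin R)))ᶜ =
      univ.map Function.Embedding.inl := by
    ext (j | j) <;> simp
  rw [e2, prod_map, Fin.prod_univ_three, card_map, card_univ, Fintype.sum_sum_type,
    Fintype.sum_sum_type] at key
  simp only [Sum.elim_inl, Sum.elim_inr, Int.cast_neg, Int.cast_natCast, ← hs] at key
  convert (key hΛ.ne').trans_eq (abs_of_pos hΛ) using 5
  · rfl
  · simp
    ring

theorem two_gaps (R : ℕ) (hJ : J ≠ 0) : ∃ κ : ℝ, 0 < κ ∧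
    ∀ (A C h c c' n n' : ℕ) (σ B : ℝ) (v a w m : Fin R → ℕ), 0 < A → 0 < C → 2 ^ J ≤ h → 12 ≤ B → ∑ i, a i = n →
      ∑ i, m i = n' → (n : ℝ) ≤ B → (n' : ℝ) ≤ B → 0 < c → 0 < c' → c' ≤ 2 * h →
      1 + Real.log c ≤ σ → 1 + Real.log c' ≤ σ → (∀ i, Win J h (c * v i)) → (∀ i, Win J h (c' * w i)) →
      A * ∏ i, v i ^ a i < C * ∏ i, w i ^ m i → ∀ E, (1 + Real.log (2 * h)) * (A + C) * σ ≤ E ∨
        1 + Real.log (2 * h) + (A + C) + |(n' : ℝ) - n| * Real.log h + B * σ ≤ E →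
      Real.exp (-(κ * E * Real.log B ^ (4 * R + 2))) ≤
        Real.log ((C * ∏ i, w i ^ m i : ℕ) : ℝ) - Real.log ((A * ∏ i, v i ^ a i : ℕ) : ℝ) := by
  obtain ⟨κ, hκ, H⟩ := gap R hJ
  refine ⟨κ, hκ, fun A C h c c' n n' σ B v a w m hA hC hh hB ha hm hn hn' hc hc' hch hσ hσ' hv hw
    hlt E hE => ?_⟩
  have A1 : (1 : ℝ) ≤ A := by exact_mod_cast hA
  have C1 : (1 : ℝ) ≤ C := by exact_mod_cast hC
  have c0 : (0 : ℝ) < c := by exact_mod_cast hc
  have c0' : (0 : ℝ) < c' := by exact_mod_cast hc'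
  have h2 := two_le ⟨hJ, hh⟩
  have h1 : (2 : ℝ) ≤ h := by exact_mod_cast h2
  have h0 : (0 : ℝ) < h := by linarith
  have v0 : ∀ i, 0 < v i := fun i => Nat.pos_of_mul_pos_left ((hv i).pos ⟨hJ, hh⟩).1
  have w0 : ∀ i, 0 < w i := fun i => Nat.pos_of_mul_pos_left ((hw i).pos ⟨hJ, hh⟩).1
  have hV : 0 < ∏ i, v i ^ a i := prod_pos fun i _ => pow_pos (v0 i) _
  have hW : 0 < ∏ i, w i ^ m i := prod_pos fun i _ => pow_pos (w0 i) _
  have lc := Real.log_natCast_nonneg c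
  have lc' := Real.log_natCast_nonneg c'
  have lh := Real.log_natCast_nonneg h
  have lA := Real.log_le_sub_one_of_pos (by linarith : (0 : ℝ) < A)
  have lC := Real.log_le_sub_one_of_pos (by linarith : (0 : ℝ) < C)
  have hL : 0 ≤ Real.log (2 * h) := Real.log_nonneg (by linarith)
  have ex : ∀ {x : ℕ} {t : ℝ}, 0 < x → Real.log x ≤ t → (x : ℝ) ≤ Real.exp t := fun hx ht =>
    (Real.log_le_iff_le_exp (by exact_mod_cast hx)).1 ht
  have key := fun r s α b hr h0 hs => H h B (fun i => c * v i) a (fun i => c' * w i) m r s α b hh hB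
    (ha ▸ hn) (hm ▸ hn') hv hw hr h0 _
    (sub_pos.2 (Real.log_lt_log (by exact_mod_cast Nat.mul_pos hA hV) (Nat.cast_lt.2 hlt))) hs
  have hs : ∀ t : ℝ, t = Real.log C - Real.log A + (n' - n) * Real.log h + n * Real.log c -
      n' * Real.log c' → Real.log ((C * ∏ i, w i ^ m i : ℕ) : ℝ) -
        Real.log ((A * ∏ i, v i ^ a i : ℕ) : ℝ) =
      t + (∑ i, -(a i : ℝ) * Real.log (((c * v i : ℕ) : ℝ) / h) +
        ∑ i, (m i : ℝ) * Real.log (((c' * w i : ℕ) : ℝ) / h)) := by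
    rintro t rfl
    have e1 : ∀ {e u : ℕ}, 0 < e → 0 < u → Real.log (((e * u : ℕ) : ℝ) / h) =
        Real.log e + Real.log u - Real.log h := fun he hu => by
      rw [Real.log_div (by positivity) h0.ne', Nat.cast_mul,
        Real.log_mul (by positivity) (by positivity)]
    rw [Nat.cast_mul C, Nat.cast_mul A, Real.log_mul (by positivity) (by positivity),
      Real.log_mul (by positivity) (by positivity), JW.log_prod_pow m w0, JW.log_prod_pow a v0,
      ← ha, ← hm]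
    simp only [e1 hc (v0 _), e1 hc' (w0 _)]
    push_cast
    simp only [mul_sub, mul_add, neg_mul, sum_sub_distrib, sum_add_distrib, sum_neg_distrib,
      ← sum_mul]
    ring
  have hΛ : 0 ≤ Real.log B ^ (4 * R + 2) := pow_nonneg (Real.log_nonneg (by linarith)) _
  have n0 : (0 : ℝ) ≤ n := n.cast_nonneg
  have n0' : (0 : ℝ) ≤ n' := n'.cast_nonneg
  rcases hE with hE | hE
  · refine le_trans ?_ (key ![h, C, c] ![c', A, c'] ![1 + Real.log (2 * h), A + C, σ]
      ![n' - n, 1, n] (fun i => ?_) le_rfl (hs _ ?_))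
    · simp only [Matrix.cons_val_zero, Matrix.cons_val_one, Matrix.cons_val]
      gcongr
    · have l1 := Real.log_le_log h0 (by linarith : (h : ℝ) ≤ 2 * h)
      have l2 := Real.log_le_log c0' (by exact_mod_cast hch : (c' : ℝ) ≤ 2 * h)
      fin_cases i
      · exact ⟨⟨by simp; omega, hc', by simpa using hL, ex (by simp; omega) (by simp; linarith),
          ex hc' (by simp; linarith)⟩, by simp [abs_le]; constructor <;> linarith⟩
      · exact ⟨⟨hC, hA, by simp; linarith, ex hC (by simp; linarith), ex hA (by simp; linarith)⟩,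
          by simp; linarith⟩
      · exact ⟨⟨hc, hc', by simp; linarith, ex hc (by simp; linarith), ex hc' (by simp; linarith)⟩,
          by simpa using hn⟩
    · simp only [Fin.sum_univ_three, Matrix.cons_val_zero, Matrix.cons_val_one, Matrix.cons_val]
      rw [Real.log_div h0.ne' c0'.ne', Real.log_div (by linarith) (by linarith),
        Real.log_div c0.ne' c0'.ne']
      push_cast
      ring
  · have lg : ∀ {a c : ℕ} (d e : ℕ), 0 < a → 0 < c → Real.log ((a * h ^ d * c ^ e : ℕ) : ℝ) =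
        Real.log a + d * Real.log h + e * Real.log c := fun d e ha hc => by
      push_cast
      rw [Real.log_mul (by positivity) (by positivity), Real.log_mul (by positivity) (by positivity),
        Real.log_pow, Real.log_pow]
    have p1 : 0 < C * h ^ (n' - n) * c ^ n := by positivity
    have p2 : 0 < A * h ^ (n - n') * c' ^ n' := by positivity
    have d0 : ((n' - n : ℕ) : ℝ) - (n - n' : ℕ) = n' - n := by
      exact_mod_cast (by omega : ((n' - n : ℕ) : ℤ) - (n - n' : ℕ) = n' - n)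
    have d1 : ((n' - n : ℕ) : ℝ) ≤ |(n' : ℝ) - n| := by
      exact_mod_cast (by rw [Int.abs_eq_natAbs]; omega : ((n' - n : ℕ) : ℤ) ≤ |(n' : ℤ) - n|)
    have d2 : ((n - n' : ℕ) : ℝ) ≤ |(n' : ℝ) - n| := by
      exact_mod_cast (by rw [Int.abs_eq_natAbs]; omega : ((n - n' : ℕ) : ℤ) ≤ |(n' : ℤ) - n|)
    have q0 : 0 ≤ |(n' : ℝ) - n| * Real.log h := by positivity
    have q1 := mul_le_mul_of_nonneg_right d1 lh
    have q2 := mul_le_mul_of_nonneg_right d2 lh
    have q3 : n * Real.log c ≤ B * σ := mul_le_mul hn (by linarith) lc (by linarith)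
    have q4 : n' * Real.log c' ≤ B * σ := mul_le_mul hn' (by linarith) lc' (by linarith)
    have q5 : 0 ≤ B * σ := mul_nonneg (by linarith) (by linarith)
    refine le_trans (by simp) (key ![C * h ^ (n' - n) * c ^ n, 1, 1]
      ![A * h ^ (n - n') * c' ^ n', 1, 1] ![E, 1, 1] ![1, 0, 0] (fun i => ?_)
      (by simp; linarith) (hs _ ?_))
    · fin_cases i
      · exact ⟨⟨p1, p2, by simp; linarith, ex p1 ((lg _ _ hC hc).trans_le (by simp; linarith)),
          ex p2 ((lg _ _ hA hc').trans_le (by simp; linarith))⟩, by simp; linarith⟩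
      · simp; linarith
      · simp; linarith
    · simp only [Fin.sum_univ_three, Matrix.cons_val_zero, Matrix.cons_val_one, Matrix.cons_val]
      rw [Real.log_div (by exact_mod_cast p1.ne') (by exact_mod_cast p2.ne'), lg _ _ hC hc,
        lg _ _ hA hc', ← d0]
      push_cast
      ring

end Pool.Agent.Lib.MP_4ffbf9_nt.JM
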