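import Mathlib
import Pool.Agent.Lib.MP_4ffbf9_nt.JM.Gap

/-!
No solutions of large degree whose scaled factors lie in one window, for moving scales.
-/

set_option autoImplicit false

namespace Pool.Agent.Lib.MP_4ffbf9_nt.JM

open Finset

variable {J : ℕ}

theorem log_bounds {R c h : ℕ} {σ : ℝ} {w : Fin R → ℕ} (m : Fin R → ℕ) (hh : J ≠ 0 ∧ 2 ^ J ≤ h)
    (hσ : 1 + Real.log c ≤ σ) (hw : ∀ i, Win J h (c * w i)) :
    (∑ i, m i : ℕ) * (Real.log h - σ) ≤ Real.log ((∏ i, w i ^ m i : ℕ) : ℝ) ∧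
      Real.log ((∏ i, w i ^ m i : ℕ) : ℝ) ≤ (∑ i, m i : ℕ) * (Real.log h + 1) := by
  have := two_le hh
  have h0 : (0 : ℝ) < h := by exact_mod_cast (by omega : 0 < h)
  have l2 : Real.log 2 ≤ 1 := by linarith [Real.log_two_lt_d9]
  have w0 : ∀ i, 0 < w i := fun i => Nat.pos_of_mul_pos_left ((hw i).pos hh).1
  rw [JW.log_prod_pow m w0, Nat.cast_sum, sum_mul, sum_mul]
  have key : ∀ i, Real.log h - σ ≤ Real.log (w i) ∧ Real.log (w i) ≤ Real.log h + 1 := fun i => by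
    obtain ⟨h1, h2, h3⟩ := (hw i).pos hh
    have c0 : 0 < c := Nat.pos_of_mul_pos_right h1
    have c1 : (0 : ℝ) < c := by exact_mod_cast c0
    have w1 : (0 : ℝ) < w i := by exact_mod_cast w0 i
    have h4 := Real.log_le_log h0 (show (h : ℝ) ≤ 2 * (c * w i) by exact_mod_cast h2)
    have h5 := Real.log_le_log w1 (show (w i : ℝ) ≤ 2 * h by
      exact_mod_cast (Nat.le_mul_of_pos_left _ c0).trans h3)
    rw [Real.log_mul two_ne_zero (by positivity), Real.log_mul c1.ne' w1.ne'] at h4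
    rw [Real.log_mul two_ne_zero h0.ne'] at h5
    constructor <;> linarith
  exact ⟨sum_le_sum fun i _ => by gcongr; exact (key i).1,
    sum_le_sum fun i _ => by gcongr; exact (key i).2⟩

theorem three_le_log {h : ℕ} (hh : 27 ≤ h) : 3 ≤ Real.log h := by
  have h1 : (27 : ℝ) ≤ h := by exact_mod_cast hh
  rw [Real.le_log_iff_exp_le (by linarith), show (3 : ℝ) = (3 : ℕ) * 1 by norm_num,
    Real.exp_nat_mul]
  exact (pow_le_pow_left₀ (by positivity) Real.exp_one_lt_three.le 3).trans (by linarith)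

theorem cut {h K K' p : ℕ} {σ : ℝ} (hh : 27 ≤ h) (hσ : 1 ≤ σ) (hK : K' ≤ K)
    (h1 : K * σ * Real.log (Real.log h) ^ p ≤ Real.log h) :
    K' * σ * Real.log (Real.log h) ^ p ≤ Real.log h ∧ K' * σ ≤ Real.log h := by
  have h2 : 1 ≤ Real.log (Real.log h) := by
    rw [Real.le_log_iff_exp_le (by linarith [three_le_log hh])]
    linarith [three_le_log hh, Real.exp_one_lt_three]
  have h3 : K' * σ * Real.log (Real.log h) ^ p ≤ Real.log h := le_trans (by gcongr) h1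
  exact ⟨h3, (le_mul_of_one_le_right (by positivity) (one_le_pow₀ h2)).trans h3⟩

theorem deg_close (A B C R G : ℕ) (hA : 0 < A) (hB : 0 < B) (hC : 0 < C) (hJ : J ≠ 0) :
    ∃ K n1 h1 : ℕ, ∀ (h : ℕ) (σ : ℝ) (c : Fin 3 → ℕ) (w m : Fin 3 → Fin R → ℕ) (n : Fin 3 → ℕ),
      (∀ k, ∑ i, m k i = n k) → n1 ≤ n 0 + n 1 + n 2 → h1 ≤ h →
      (∀ k, 0 < c k ∧ 1 + Real.log (c k) ≤ σ) →
      K * σ * Real.log (Real.log h) ^ (4 * R + 2) ≤ Real.log h → (∀ k i, Win J h (c k * w k i)) →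
      A * ∏ i, w 0 i ^ m 0 i + B * ∏ i, w 1 i ^ m 1 i = C * ∏ i, w 2 i ^ m 2 i →
      ∀ j k, G * n j ≤ G * n k + 4 * (n 0 + n 1 + n 2) := by
  obtain ⟨κ, hκ, H⟩ := two_gaps R hJ
  obtain ⟨T, hT⟩ : ∃ T, T = A + B + C := ⟨_, rfl⟩
  have T3 : (3 : ℝ) ≤ T := by exact_mod_cast (by omega : 3 ≤ T)
  obtain ⟨N1, hN1⟩ := Filter.eventually_atTop.1 ((Real.isLittleO_pow_log_id_atTop
    (n := (4 * R + 2) * 2)).bound (c := 1 / (12 * (G + 1) * κ * T) ^ 2) (by positivity))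
  refine ⟨⌈8 * G * κ * 2 ^ (4 * R + 2)⌉₊ + G + 1, ⌈N1⌉₊ + 4 * G * T + 12, 2 ^ J + 27,
    fun h σ c w m n hn hN hh' hcσ hK hw he => ?_⟩
  obtain ⟨N, hNe⟩ : ∃ N, N = n 0 + n 1 + n 2 := ⟨_, rfl⟩
  rw [← hNe] at hN ⊢
  have h16 : J ≠ 0 ∧ 2 ^ J ≤ h := ⟨hJ, by omega⟩
  have hh : 27 ≤ h := (Nat.le_add_left _ _).trans hh'
  have h3 : (27 : ℝ) ≤ h := by exact_mod_cast hh
  have hl := three_le_log hh
  have hσ1 : 1 ≤ σ := by linarith [(hcσ 0).2, Real.log_natCast_nonneg (c 0)]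
  have hGσ := (cut (K' := G) hh hσ1 (by omega) hK).2
  have hσl := (cut (K' := 1) hh hσ1 (by omega) hK).2
  have hK1 := (cut (K' := ⌈8 * G * κ * 2 ^ (4 * R + 2)⌉₊) hh hσ1 (by omega) hK).1
  rw [Nat.cast_one, one_mul] at hσl
  have N4 : (12 : ℝ) ≤ N := by exact_mod_cast (by omega : 12 ≤ N)
  have hW : ∀ k, 0 < ∏ i, w k i ^ m k i := fun k => prod_pos fun i _ =>
    pow_pos (Nat.pos_of_mul_pos_left ((hw k i).pos h16).1) _
  obtain ⟨L, hL⟩ : ∃ L : Fin 3 → ℝ, ∀ k, L k = Real.log ((∏ i, w k i ^ m k i : ℕ) : ℝ) :=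
    ⟨_, fun _ => rfl⟩
  have hlog : ∀ {a : ℕ} (k), 0 < a → L k ≤ Real.log ((a * ∏ i, w k i ^ m k i : ℕ) : ℝ) ∧
      Real.log ((a * ∏ i, w k i ^ m k i : ℕ) : ℝ) ≤ L k + a := fun {a} k ha => by
    have a1 : (1 : ℝ) ≤ a := by exact_mod_cast ha
    rw [Nat.cast_mul, Real.log_mul (by linarith) (by exact_mod_cast (hW k).ne'), hL]
    constructor <;>
      linarith [Real.log_nonneg a1, Real.log_le_sub_one_of_pos (by linarith : 0 < (a : ℝ))]
  have step : ∀ (j k : Fin 3) (E : ℝ), n j + n k ≤ N → L j ≤ L k + E →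
      (n j : ℝ) * Real.log h ≤ n k * Real.log h + σ * N + E := fun j k E hjk hle => by
    have h1 := (log_bounds (m j) h16 (hcσ j).2 (hw j)).1
    have h2 := (log_bounds (m k) h16 (hcσ k).2 (hw k)).2
    rw [← hL, hn] at h1 h2
    have h4 : (n j : ℝ) + n k ≤ N := by exact_mod_cast hjk
    nlinarith [Nat.cast_nonneg (α := ℝ) (n k)]
  have key : ∀ (j k : Fin 3) (E : ℝ), n j + n k ≤ N → G * E ≤ N * Real.log h → L j ≤ L k + E →
      G * n j ≤ G * n k + 2 * N := fun j k E hjk hE hle => by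
    have h6 := mul_le_mul_of_nonneg_left (step j k E hjk hle) (Nat.cast_nonneg (α := ℝ) G)
    have h7 := mul_le_mul_of_nonneg_right hGσ (Nat.cast_nonneg (α := ℝ) N)
    have h8 : (G * n j : ℝ) ≤ G * n k + 2 * N :=
      le_of_mul_le_mul_right (a := Real.log h) (by linarith) (by linarith)
    exact_mod_cast h8
  have hG : 4 * (G * (T : ℝ)) ≤ N * Real.log h := by
    have : (4 : ℝ) * G * T ≤ N := by exact_mod_cast (by omega : 4 * G * T ≤ N)
    nlinarith
  have G0 : (0 : ℝ) ≤ G := G.cast_nonneg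
  have lN : 0 ≤ Real.log N := Real.log_nonneg (by linarith)
  have hΛ0 : 0 ≤ Real.log N ^ (4 * R + 2) := by positivity
  have hΛ := hN1 N (Nat.ceil_le.1 (by omega))
  rw [Real.norm_of_nonneg (by positivity), id, Real.norm_of_nonneg (by linarith), one_div,
    le_inv_mul_iff₀ (by positivity), pow_mul, ← mul_pow] at hΛ
  have hΛ' : ∀ t : ℝ, t ^ 2 ≤ N → 12 * (G + 1) * κ * T * Real.log N ^ (4 * R + 2) * t ≤ N :=
    fun t ht => le_of_pow_le_pow_left₀ two_ne_zero (by linarith) (by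
      rw [mul_pow, sq (N : ℝ)]
      exact mul_le_mul hΛ ht (by positivity) (by linarith))
  have hl' : 1 + Real.log (2 * h) ≤ 3 * Real.log h := by
    rw [Real.log_mul two_ne_zero (by linarith)]
    linarith [Real.log_two_lt_d9]
  have up : ∀ {a : ℕ} (j), 0 < a → a * ∏ i, w j i ^ m j i ≤ C * ∏ i, w 2 i ^ m 2 i →
      L j ≤ L 2 + T := fun {a} j ha hle => by
    have := Real.log_le_log (Nat.cast_pos.2 (Nat.mul_pos ha (hW j))) (Nat.cast_le.2 hle)
    have h1 : (C : ℝ) ≤ T := by exact_mod_cast (by omega : C ≤ T)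
    linarith [(hlog j ha).1, (hlog 2 hC).2]
  have half : ∀ (a b : ℕ) (j k : Fin 3), 0 < a → 0 < b → a + b + C = T → n j + n k + n 2 = N →
      a * ∏ i, w j i ^ m j i + b * ∏ i, w k i ^ m k i = C * ∏ i, w 2 i ^ m 2 i →
      b * ∏ i, w k i ^ m k i ≤ a * ∏ i, w j i ^ m j i →
      G * n 2 ≤ G * n j + 2 * N ∧ G * n 2 ≤ G * n k + 2 * N := fun a b j k ha hb hab hjk e hle => by
    have pa := Nat.mul_pos ha (hW j)
    have pb := Nat.mul_pos hb (hW k)
    have a1 : (a : ℝ) + 1 ≤ T := by exact_mod_cast (by omega : a + 1 ≤ T)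
    have a2 : (a : ℝ) + C ≤ T := by exact_mod_cast (by omega : a + C ≤ T)
    have b1 : (b : ℝ) + 1 ≤ T := by exact_mod_cast (by omega : b + 1 ≤ T)
    have dn : L 2 ≤ L j + T := by
      have h1 := Real.log_le_log (Nat.cast_pos.2 (Nat.mul_pos hC (hW 2)))
        (show ((C * ∏ i, w 2 i ^ m 2 i : ℕ) : ℝ) ≤ 2 * (a * ∏ i, w j i ^ m j i : ℕ) by
          exact_mod_cast (by omega : C * ∏ i, w 2 i ^ m 2 i ≤ 2 * (a * ∏ i, w j i ^ m j i)))
      rw [Real.log_mul two_ne_zero (Nat.cast_pos.2 pa).ne'] at h1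
      linarith [(hlog j ha).2, (hlog 2 hC).1, Real.log_two_lt_d9]
    refine ⟨key 2 j _ (by omega) (by linarith [mul_nonneg G0 (by linarith : (0 : ℝ) ≤ T)]) dn, ?_⟩
    have fin : ∀ E : ℝ, 0 ≤ E → ((1 + Real.log (2 * h)) * (a + C) * σ ≤ E ∨
        1 + Real.log (2 * h) + (a + C) + |(n 2 : ℝ) - n j| * Real.log h + N * σ ≤ E) →
        2 * (G * (κ * E * Real.log N ^ (4 * R + 2))) ≤ N * Real.log h →
        G * n 2 ≤ G * n k + 2 * N := fun E E0 hE h1 => by
      refine key 2 k (T + κ * E * Real.log N ^ (4 * R + 2)) (by omega)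
        (by linarith [mul_nonneg G0 (by linarith : (0 : ℝ) ≤ T)]) ?_
      have c2 : (0 : ℝ) < c 2 := by exact_mod_cast (hcσ 2).1
      have c3 : c 2 ≤ h := by
        exact_mod_cast (Real.log_le_log_iff c2 (by linarith : (0 : ℝ) < h)).1
          (by linarith [(hcσ 2).2])
      have := JW.add_gap (Nat.cast_pos.2 pb) (Nat.cast_pos.2 pa) (by positivity)
        (by rw [← Nat.cast_add, e])
        (H a C h _ _ _ _ σ N _ _ _ _ ha hC h16.2 N4 (hn j) (hn 2)
          (by exact_mod_cast (by omega : n j ≤ N)) (by exact_mod_cast (by omega : n 2 ≤ N))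
          (hcσ j).1 (hcσ 2).1 (by omega) (hcσ j).2 (hcσ 2).2 (hw j) (hw 2) (by omega) E hE)
      linarith [(hlog k hb).2, (hlog 2 hC).1]
    have q0 : 0 ≤ κ * T * Real.log N ^ (4 * R + 2) * Real.log h := by positivity
    rcases le_total (Real.log h ^ 2) N with hr | hr
    · refine fin (3 * Real.log h * T * Real.log h) (by positivity) (.inl (by gcongr)) ?_
      have := mul_le_mul_of_nonneg_right (hΛ' _ hr) (by linarith : 0 ≤ Real.log h)
      nlinarith [mul_nonneg q0 (by linarith : 0 ≤ Real.log h),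
        mul_nonneg G0 (mul_nonneg q0 (by linarith : 0 ≤ Real.log h))]
    · refine fin (3 * T * Real.log h + 2 * σ * N) (by positivity) (.inr ?_) ?_
      · have h1 := step 2 j _ (by omega) dn
        have h2 := step j 2 _ (by omega) (up j ha (by omega))
        have h4 : |(n 2 : ℝ) - n j| * Real.log h ≤ σ * N + T := by
          rw [← abs_of_nonneg (by linarith : 0 ≤ Real.log h), ← abs_mul, abs_le]
          constructor <;> linarith
        nlinarith
      · have h1 := mul_le_mul_of_nonneg_right (hΛ' 1 (by linarith)) (by linarith : 0 ≤ Real.log h)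
        have h2 : Real.log N ^ (4 * R + 2) ≤
            2 ^ (4 * R + 2) * Real.log (Real.log h) ^ (4 * R + 2) := by
          rw [← mul_pow]
          gcongr
          simpa using Real.log_le_log (by linarith) hr
        have h4 : 8 * G * κ * σ * Real.log N ^ (4 * R + 2) ≤ Real.log h :=
          calc _ ≤ 8 * G * κ * σ * (2 ^ (4 * R + 2) * Real.log (Real.log h) ^ (4 * R + 2)) := by
                gcongr
            _ = 8 * G * κ * 2 ^ (4 * R + 2) * σ * Real.log (Real.log h) ^ (4 * R + 2) := by ring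
            _ ≤ _ := le_trans (by
                have := Real.log_nonneg (by linarith : 1 ≤ Real.log h)
                gcongr
                exact Nat.le_ceil _) hK1
        have h5 := mul_le_mul_of_nonneg_left h4 (by linarith : (0 : ℝ) ≤ N)
        linarith
  have e : G * (T : ℝ) ≤ N * Real.log h := by
    linarith [mul_nonneg G0 (by linarith : (0 : ℝ) ≤ T)]
  have u : ∀ j, G * n j ≤ G * n 2 + 2 * N := by
    intro j
    fin_cases j
    · exact key 0 2 _ (by omega) e (up 0 hA (by omega))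
    · exact key 1 2 _ (by omega) e (up 1 hB (by omega))
    · exact Nat.le_add_right _ _
  have d : ∀ k, G * n 2 ≤ G * n k + 2 * N := by
    have h01 : G * n 2 ≤ G * n 0 + 2 * N ∧ G * n 2 ≤ G * n 1 + 2 * N :=
      (le_total _ _).elim (half A B 0 1 hA hB hT.symm hNe.symm he)
        fun h => (half B A 1 0 hB hA (by omega) (by omega) (by omega) h).symm
    intro k
    fin_cases k
    exacts [h01.1, h01.2, Nat.le_add_right _ _]
  intro j k
  have := u j
  have := d k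
  omega

theorem large (A B C R : ℕ) (Q : ℝ) (hA : 0 < A) (hB : 0 < B) (hC : 0 < C) (hJ : J ≠ 0) :
    ∃ K n0 h0 : ℕ, ∀ (h : ℕ) (σ : ℝ) (c : Fin 3 → ℕ) (w m : Fin 3 → Fin R → ℕ) (n : Fin 3 → ℕ),
      (∀ k, ∑ i, m k i = n k) → n0 ≤ n 0 + n 1 + n 2 → h0 ≤ h →
      (∀ k, 0 < c k ∧ 1 + Real.log (c k) ≤ σ) →
      K * σ * Real.log (Real.log h) ^ (4 * R + 2) ≤ Real.log h → (∀ k i, Win J h (c k * w k i)) →
      PR.GcdOk Q (∏ i, w 0 i ^ m 0 i) (∏ i, w 1 i ^ m 1 i) →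
      A * ∏ i, w 0 i ^ m 0 i + B * ∏ i, w 1 i ^ m 1 i ≠ C * ∏ i, w 2 i ^ m 2 i := by
  obtain ⟨D, h0, n0, H⟩ := PR.window (Fin 3 × Fin R) J (by omega)
  obtain ⟨K, n1, h1, H1⟩ := deg_close A B C R (64 * (D + 1)) hA hB hC hJ
  obtain ⟨S, hS⟩ : ∃ S, S = B + C + A * ⌈Q⌉₊ := ⟨_, rfl⟩
  refine ⟨K + 2 * D * (S + 3), n1 + 4 * (n0 + 4 * D * R + 1), 2 ^ J + (h0 + h1 + 27),
    fun h σ c w m n hn hN hh' hcσ hK hw hQ he => ?_⟩
  have hh : h0 + h1 + 27 ≤ h := (Nat.le_add_left _ _).trans hh'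
  obtain ⟨P, hP⟩ : ∃ P, P = c 0 * c 1 * c 2 := ⟨_, rfl⟩
  have hc := fun k => (hcσ k).1
  have hh0 : 0 < h := by omega
  have h16 : J ≠ 0 ∧ 2 ^ J ≤ h := ⟨hJ, by omega⟩
  have hσ1 : 1 ≤ σ := by linarith [(hcσ 0).2, Real.log_natCast_nonneg (c 0)]
  have hcl := H1 h σ c w m n hn (by omega) (by omega) hcσ
    (cut (by omega) hσ1 (Nat.le_add_right _ _) hK).1 hw he
  have hSP : (S * P) ^ (2 * D) ≤ h := by
    have S0 : (0 : ℝ) < S := by exact_mod_cast (by omega : 0 < S)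
    have c0 : ∀ k, (0 : ℝ) < c k := fun k => by exact_mod_cast hc k
    have h2 := (cut (by omega) hσ1 (Nat.le_add_left _ _) hK).2
    have h3 : (((S * P) ^ (2 * D) : ℕ) : ℝ) ≤ h := by
      have := c0 0
      have := c0 1
      have := c0 2
      rw [hP, ← Real.log_le_log_iff (by push_cast; positivity) (by positivity)]
      push_cast at h2 ⊢
      rw [Real.log_pow, Real.log_mul (by positivity) (by positivity),
        Real.log_mul (by positivity) (by positivity), Real.log_mul (by positivity) (by positivity)]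
      refine le_trans ?_ h2
      rw [mul_assoc (2 * (D : ℝ))]
      push_cast
      gcongr
      nlinarith [(hcσ 0).2, (hcσ 1).2, (hcσ 2).2, Real.log_le_sub_one_of_pos S0]
    exact_mod_cast h3
  obtain ⟨k0, -, hk0⟩ := exists_min_image univ n univ_nonempty
  obtain ⟨ν, hν⟩ : ∃ ν, ν = n k0 := ⟨_, rfl⟩
  have hex : ∀ k, ∃ e, n k = ν + e ∧ 16 * (D + 1) * e ≤ n 0 + n 1 + n 2 := fun k => by
    obtain ⟨e, he⟩ := Nat.exists_eq_add_of_le (hk0 k (mem_univ k))
    have := hcl k k0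
    rw [he, mul_add] at this
    exact ⟨e, hν ▸ he, by nlinarith⟩
  choose e hne he' using hex
  have hN4 : n 0 + n 1 + n 2 ≤ 4 * ν := by
    have := he' 0
    have := he' 1
    have := he' 2
    have := hne 0
    have := hne 1
    have := hne 2
    nlinarith [Nat.zero_le (D * e 0), Nat.zero_le (D * e 1), Nat.zero_le (D * e 2)]
  have he4 : ∀ k, 4 * D * e k ≤ ν := fun k => by nlinarith [he' k]
  have hsp : ∀ k, ∃ p q : Fin R → ℕ, ∑ i, p i = ν ∧ ∑ i, q i = e k ∧ ∀ i, m k i = p i + q i :=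
    fun k => by
      obtain ⟨p, hp, hpd⟩ := Finsupp.exists_le_degree_eq (Finsupp.equivFunOnFinite.symm (m k)) ν
        (by rw [Finsupp.degree_eq_sum]; simp [hn, hne k])
      rw [Finsupp.degree_eq_sum] at hpd
      have hp' : ∀ i, m k i = p i + (m k i - p i) := fun i =>
        (Nat.add_sub_cancel' (by simpa using hp i)).symm
      refine ⟨p, fun i => m k i - p i, hpd, ?_, hp'⟩
      have := hn k
      rw [sum_congr rfl fun i _ => hp' i, sum_add_distrib, hpd, hne k] at this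
      exact Nat.add_left_cancel this
  choose p q hp hq hpq using hsp
  have w0 : ∀ k i, 0 < w k i := fun k i => Nat.pos_of_mul_pos_left ((hw k i).pos h16).1
  have w2 : ∀ k i, w k i ≤ h ^ 2 := fun k i =>
    ((Nat.le_mul_of_pos_left _ (hc k)).trans ((hw k i).pos h16).2.2).trans
      (by rw [sq]; exact Nat.mul_le_mul_right _ (two_le h16))
  obtain ⟨V, hV⟩ : ∃ V : Fin 3 → ℕ, ∀ k, V k = ∏ i, w k i ^ p k i := ⟨_, fun _ => rfl⟩
  obtain ⟨E, hE⟩ : ∃ E : Fin 3 → ℕ, ∀ k, E k = ∏ i, w k i ^ q k i := ⟨_, fun _ => rfl⟩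
  have hW : ∀ k, ∏ i, w k i ^ m k i = E k * V k := fun k => by
    simp only [hV, hE, hpq, pow_add, prod_mul_distrib, mul_comm]
  have V0 : ∀ k, 0 < V k := fun k => hV k ▸ prod_pos fun i _ => pow_pos (w0 k i) _
  have E0 : ∀ k, 0 < E k := fun k => hE k ▸ prod_pos fun i _ => pow_pos (w0 k i) _
  have E1 : ∀ k, E k ≤ h ^ (2 * e k) := fun k => by
    rw [hE, pow_mul, ← hq, ← prod_pow_eq_pow_sum]
    exact prod_le_prod' fun i _ => Nat.pow_le_pow_left (w2 k i) _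
  let ε : Fin 3 → (Fin 3 × Fin R →₀ ℕ) := fun k =>
    Finsupp.equivFunOnFinite.symm fun v => if v.1 = k then p k v.2 else 0
  have hε : ∀ k, ∑ v, ε k v = ν := fun k => by
    simp [ε, Fintype.sum_prod_type, sum_ite_irrel, hp]
  have hm : ∀ k, PR.mon (fun v : Fin 3 × Fin R => c v.1 * w v.1 v.2) (ε k) = c k ^ ν * V k :=
    fun k => by
      rw [hV, ← hp k, ← prod_pow_eq_pow_sum, ← prod_mul_distrib]
      simp [PR.mon, ε, Fintype.prod_prod_type, prod_ite_irrel, mul_pow]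
  have c0 := hc 0
  have c1 := hc 1
  have c2 := hc 2
  have ok : ∀ {a b u ee : ℕ}, a ≤ S → b ≤ P → u ≤ h ^ (2 * ee) → 4 * D * ee ≤ ν →
      (a * b ^ ν * u) ^ D ≤ h ^ ν := fun ha hb hu hee => by
    refine JW.pow_ok (T := S * P) ?_ hee hSP hh0
    rw [mul_pow]
    gcongr
    exact ha.trans (Nat.le_self_pow (by omega) _)
  rw [hW, hW] at hQ
  rw [hW, hW, hW] at he
  refine H ν h (fun v => c v.1 * w v.1 v.2) (ε 0) (ε 1) (ε 2) (A * (c 1 * c 2) ^ ν * E 0)
    (B * (c 0 * c 2) ^ ν * E 1) (C * (c 0 * c 1) ^ ν * E 2) (by omega) (by omega)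
    (fun v => hw v.1 v.2)
    (hε 0) (hε 1) (hε 2) (by have := E0 0; positivity) (by have := E0 1; positivity)
    (by have := E0 2; positivity)
    (ok (by omega) (by rw [hP, mul_right_comm]; exact Nat.le_mul_of_pos_right _ c1) (E1 1) (he4 1))
    (ok (by omega) (by rw [hP]; exact Nat.le_mul_of_pos_right _ c2) (E1 2) (he4 2)) ?_ ?_
  · rw [hm, hm]
    have g1 := Nat.gcd_dvd_left (V 1) (V 2)
    have g2 := Nat.gcd_dvd_right (V 1) (V 2)
    have hg := PR.w2_gcd (W := ∏ i, w 1 i) (n := ν) hA (Nat.mul_pos (E0 1) (V0 1))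
      (prod_pos fun i _ => w0 1 i) (by omega) hQ
      ((Nat.dvd_add_left ((g1.mul_left _).mul_left B)).1 (he ▸ (g2.mul_left _).mul_left C))
      (g1.mul_left _) (g1.trans (by
        rw [hV, ← prod_pow]
        exact prod_dvd_prod_of_dvd _ _ fun i _ => pow_dvd_pow _
          (hp 1 ▸ single_le_sum (fun _ _ => Nat.zero_le _) (mem_univ i))))
    have hd : Nat.gcd (c 1 ^ ν * V 1) (c 2 ^ ν * V 2) ∣ (c 1 * c 2) ^ ν * Nat.gcd (V 1) (V 2) := by
      rw [← Nat.gcd_mul_left, mul_pow]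
      exact Nat.gcd_dvd_gcd_of_dvd_left _ ⟨c 2 ^ ν, by ring⟩ |>.trans
        (Nat.gcd_dvd_gcd_of_dvd_right _ ⟨c 1 ^ ν, by ring⟩)
    have hR : ∏ i, w 1 i ≤ h ^ (2 * R) :=
      (prod_le_pow_card _ _ _ fun i _ => w2 1 i).trans (by simp [pow_mul])
    refine le_trans (Nat.pow_le_pow_left ?_ _) (ok (a := A * ⌈Q⌉₊) (b := c 1 * c 2) (by omega)
      (by rw [hP, mul_assoc]; exact Nat.le_mul_of_pos_left _ c0) hR (by omega))
    refine (Nat.le_of_dvd (Nat.mul_pos (by positivity) (Nat.gcd_pos_of_pos_left _ (V0 1))) hd).trans ?_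
    rw [mul_right_comm, mul_comm]
    exact Nat.mul_le_mul_right _ hg
  · rw [hm, hm, hm]
    simp only [mul_pow]
    linear_combination (c 0 ^ ν * c 1 ^ ν * c 2 ^ ν) * he

end Pool.Agent.Lib.MP_4ffbf9_nt.JM
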