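import Mathlib

/-!
A valuation that forgets factors of size `η ^ o(1)`, and expansions of `f (H + S)`.
-/

set_option autoImplicit false

namespace Pool.Agent.Lib.MP_4ffbf9_nt.JM

open Polynomial

theorem exists_val {Z : Type} [CommRing Z] [LinearOrder Z] [IsStrictOrderedRing Z] (η : Z)
    (hη : ∀ n : ℕ, (n : Z) ≤ η) : ∃ (Γ : Type) (_ : LinearOrderedCommGroupWithZero Γ)
      (v : Valuation Z Γ), ∀ u w, v u ≤ v w ↔ ∀ m : ℕ, |u| ^ m ≤ η * |w| ^ m := by
  have h1 : 1 ≤ η := by simpa using hη 1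
  have h0 : 0 ≤ η := zero_le_one.trans h1
  have mono : ∀ {u w : Z}, |u| ≤ |w| → ∀ m : ℕ, |u| ^ m ≤ η * |w| ^ m := fun h m =>
    (pow_le_pow_left₀ (abs_nonneg _) h m).trans (le_mul_of_one_le_left (by positivity) h1)
  have sq : ∀ {u w : Z} {m : ℕ}, |u| ^ (2 * m) ≤ η * (η * |w| ^ (2 * m)) →
      |u| ^ m ≤ η * |w| ^ m := fun {u w m} h =>
    le_of_pow_le_pow_left₀ two_ne_zero (by positivity) (by convert h using 1 <;> ring)
  let _ : ValuativeRel Z :=
    { vle := fun u w => ∀ m : ℕ, |u| ^ m ≤ η * |w| ^ m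
      vle_total := fun x y => (le_total |x| |y|).imp mono mono
      vle_trans := fun h h' m => sq ((h _).trans (mul_le_mul_of_nonneg_left (h' _) h0))
      vle_add := fun {x y z} h h' m => sq (by
        have key : ∀ {a : Z}, |x + y| ≤ 2 * |a| → |a| ^ (2 * m) ≤ η * |z| ^ (2 * m) →
            |x + y| ^ (2 * m) ≤ η * (η * |z| ^ (2 * m)) := fun ha hb => by
          refine (pow_le_pow_left₀ (abs_nonneg _) ha _).trans ?_
          rw [mul_pow]
          exact mul_le_mul (by simpa using hη (2 ^ (2 * m))) hb (by positivity) h0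
        rcases le_total |x| |y| with e | e
        · exact key (by linarith [abs_add_le x y]) (h' _)
        · exact key (by linarith [abs_add_le x y]) (h _))
      mul_vle_mul_left := fun h z m => by
        rw [abs_mul, abs_mul, mul_pow, mul_pow, ← mul_assoc]
        exact mul_le_mul_of_nonneg_right (h m) (by positivity)
      vle_mul_cancel := fun {x y z} hz h m => by
        have hz0 : z ≠ 0 := fun e => hz (e ▸ mono le_rfl)
        have := h m
        rw [abs_mul, abs_mul, mul_pow, mul_pow, ← mul_assoc] at this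
        exact le_of_mul_le_mul_right this (by positivity)
      not_vle_one_zero := fun h => by simpa [not_le.2 (zero_lt_one' Z)] using h 1
      vle_mul_comm := fun {x y} => mono (by rw [mul_comm]) }
  exact ⟨_, _, ValuativeRel.valuation Z, fun u w => (Valuation.Compatible.vle_iff_le u w).symm⟩

variable {Z Γ : Type} [CommRing Z] [LinearOrderedCommGroupWithZero Γ] {v : Valuation Z Γ} {H S : Z}

theorem cm (a : v.integer) {u : Z} {γ : Γ} (h : v u ≤ γ) : v (a * u) ≤ γ := by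
  rw [map_mul]
  exact (mul_le_of_le_one_left' a.2).trans h

theorem cn (n : ℕ) {u : Z} {γ : Γ} (h : v u ≤ γ) : v (n * u) ≤ γ := by
  simpa using cm (n : v.integer) h

theorem small (hH : 1 < v H) (hS : v S ^ 2 ≤ v H) : v S < v H := by
  refine lt_of_pow_lt_pow_left₀ 2 zero_le (hS.trans_lt ?_)
  exact lt_self_pow₀ hH one_lt_two

theorem mono_v (hH : 1 < v H) (hS : v S ^ 2 ≤ v H) {i j m : ℕ} (h2 : 2 * j ≤ i) (him : i ≤ m) :
    v (S ^ i * H ^ (m - i)) ≤ v H ^ (m - j) := by
  obtain ⟨a, rfl⟩ := Nat.exists_eq_add_of_le h2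
  obtain ⟨b, rfl⟩ := Nat.exists_eq_add_of_le him
  rw [Nat.add_sub_cancel_left, show 2 * j + a + b - j = j + a + b by omega, map_mul, map_pow,
    map_pow, pow_add, pow_mul, pow_add, pow_add]
  have := (small hH hS).le
  gcongr

theorem binom_tail (hH : 1 < v H) (hS : v S ^ 2 ≤ v H) (m j : ℕ) :
    v ((H + S) ^ m - ∑ i ∈ Finset.range (2 * j), S ^ i * H ^ (m - i) * m.choose i) ≤
      v H ^ (m - j) := by
  have h : (H + S) ^ m - ∑ i ∈ Finset.range (2 * j), S ^ i * H ^ (m - i) * m.choose i =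
      ∑ i ∈ Finset.Ico (2 * j) (m + 1 + 2 * j), S ^ i * H ^ (m - i) * m.choose i := by
    rw [Finset.sum_Ico_eq_sub _ (by omega), add_comm H, add_pow]
    congr 1
    refine Finset.sum_subset (Finset.range_mono (by omega)) fun i _ hi => ?_
    rw [Nat.choose_eq_zero_of_lt (by simpa using hi), Nat.cast_zero, mul_zero]
  rw [h]
  refine v.map_sum_le fun i hi => ?_
  by_cases him : i ≤ m
  · rw [mul_comm]
    exact cn _ (mono_v hH hS (Finset.mem_Ico.1 hi).1 him)
  · simp [Nat.choose_eq_zero_of_lt (not_le.1 him)]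

theorem low_v (hH : 1 < v H) (hS : v S ^ 2 ≤ v H) {f : v.integer[X]} {d : ℕ}
    (hf : f.natDegree ≤ d) : v (aeval (H + S) f) ≤ v H ^ d := by
  rw [aeval_eq_sum_range' (Nat.lt_succ_of_le hf)]
  refine v.map_sum_le fun i hi => cm _ ?_
  rw [map_pow]
  exact (pow_le_pow_left' (v.map_add_le le_rfl (small hH hS).le) i).trans
    (pow_le_pow_right' hH.le (Nat.lt_succ_iff.1 (Finset.mem_range.1 hi)))

theorem erase_le {O : Type} [CommRing O] {f : O[X]} {d : ℕ} (hf : f.natDegree ≤ d + 1) :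
    (f - C (f.coeff (d + 1)) * X ^ (d + 1)).natDegree ≤ d := by
  rw [natDegree_le_iff_coeff_eq_zero] at hf ⊢
  intro N hN
  rw [coeff_sub, coeff_C_mul_X_pow]
  split_ifs with h
  · rw [h, sub_self]
  · rw [hf N (by omega), sub_zero]

theorem exp_one (hH : 1 < v H) (hS : v S ^ 2 ≤ v H) {f : v.integer[X]} {d : ℕ}
    (hf : f.natDegree ≤ d + 1) :
    v (aeval (H + S) f - f.coeff (d + 1) * (H + (d + 1) * S) * H ^ d) ≤ v H ^ d := by
  have h := v.map_add_le (low_v hH hS (erase_le hf))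
    (cm (f.coeff (d + 1)) (binom_tail hH hS (d + 1) 1))
  convert h using 2
  simp [Finset.sum_range_succ, Algebra.algebraMap_ofSubsemiring_apply]
  ring

theorem exp_three (hH : 1 < v H) (hS : v S ^ 2 ≤ v H) {f : v.integer[X]} {d : ℕ}
    (hf : f.natDegree ≤ d + 3) (h1 : f.coeff (d + 3) = 1) :
    v (aeval (H + S) f - (H ^ 3 + ((d + 3) * S + f.coeff (d + 2)) * H ^ 2 +
      ((d + 3).choose 2 * S ^ 2 + f.coeff (d + 2) * (d + 2) * S) * H +
        (d + 3).choose 3 * S ^ 3) * H ^ d) ≤ v H ^ (d + 1) := by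
  have h2 := exp_one hH hS (d := d + 1) (erase_le (d := d + 2) hf)
  have h3 : (f - C (f.coeff (d + 2 + 1)) * X ^ (d + 2 + 1)).coeff (d + 1 + 1) = f.coeff (d + 2) := by
    rw [coeff_sub, coeff_C_mul_X_pow, if_neg (by omega), sub_zero]
  rw [h3, h1] at h2
  convert v.map_add_le h2 (binom_tail hH hS (d + 3) 2) using 2
  simp [Finset.sum_range_succ]
  ring

theorem cancel_v (hH : 1 < v H) {F : Z} {γ : Γ} {d : ℕ} (h : v (F * H ^ d) ≤ γ * v H ^ d) :
    v F ≤ γ := by
  rw [map_mul, map_pow] at h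
  exact le_of_mul_le_mul_right h (pow_pos (zero_lt_one.trans hH) _)

theorem lead_zero (hZ : ∀ u, u ≠ 0 → 1 ≤ v u) (hH : 1 < v H) {e U : Z} (hU : v U < v H)
    (h : v (e * H + U) ≤ 1) : e = 0 := by
  by_contra he
  have h1 : v H ≤ v (e * H) := by
    rw [map_mul]
    exact le_mul_of_one_le_left' (hZ e he)
  rw [v.map_add_eq_of_lt_left (hU.trans_le h1)] at h
  exact absurd (h1.trans h) (not_le.2 hH)

theorem of_mul (hZ : ∀ u, u ≠ 0 → 1 ≤ v u) {c u : Z} {γ : Γ} (hc : c ≠ 0) (h : v (c * u) ≤ γ) :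
    v u ≤ γ := by
  rw [map_mul] at h
  exact (le_mul_of_one_le_left' (hZ c hc)).trans h

end Pool.Agent.Lib.MP_4ffbf9_nt.JM
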