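import Mathlib
import Pool.Agent.Lib.MP_4ffbf9_nt.JM.Val

/-!
Points of `A f(x) + B g(y) = C k(z)` in a parabolic region lie on lines or parabolas of small height.
-/

set_option autoImplicit false

namespace Pool.Agent.Lib.MP_4ffbf9_nt.JM

open Polynomial

variable {Z Γ : Type} [CommRing Z] [LinearOrderedCommGroupWithZero Γ] {v : Valuation Z Γ}
  {H S T : Z}

/-- `x` is the value at `τ` of a nonconstant polynomial of degree at most two and small height. -/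
def Quad (v : Valuation Z Γ) (τ x : Z) : Prop :=
  ∃ a b c : v.integer, (a ≠ 0 ∨ b ≠ 0) ∧ x = a * τ ^ 2 + b * τ + c

theorem co2 : ((2 : v.integer) : Z) = 2 := map_ofNat v.integer.subtype 2

theorem co3 : ((3 : v.integer) : Z) = 3 := map_ofNat v.integer.subtype 3

theorem quad_bdd (hH : 1 < v H) (hS : v S ^ 2 ≤ v H) {lam c₁ c₂ c₃ : v.integer}
    (h : v (lam * H ^ 2 + (c₂ * S ^ 2 + c₁ * S) * H + c₃ * S ^ 3) ≤ v H) (h1 : 1 ≤ v S) :
    v (c₂ * lam * H + c₂ ^ 2 * S ^ 2 + (c₁ * c₂ - c₃ * lam) * S) ≤ 1 := by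
  have o2 : v H ≤ v S * v H ^ 1 := by rw [pow_one]; exact le_mul_of_one_le_left' h1
  have o3 : v (S ^ 3) ≤ v S * v H ^ 1 := by
    rw [map_pow, pow_succ', pow_one]
    gcongr
  have o4 : v (lam * H + c₂ * S ^ 2) ≤ v S := by
    refine cancel_v hH (d := 1) ?_
    convert v.map_sub_le (v.map_sub_le (h.trans o2) (cm c₃ o3))
      (cm c₁ (u := S * H) (by rw [map_mul, pow_one])) using 2
    ring
  have o5 : v (S * (lam * H + c₂ * S ^ 2)) ≤ v H := by
    refine le_trans ?_ hS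
    rw [map_mul, sq (v S)]
    gcongr
  refine cancel_v hH (d := 1) ?_
  rw [one_mul, pow_one (v H)]
  convert v.map_sub_le (cm c₂ h) (cm c₃ o5) using 2
  ring

variable [CharZero Z]

theorem one_bdd (hZ : ∀ u, u ≠ 0 → 1 ≤ v u) (hH : 1 < v H) (hS : v S ^ 2 ≤ v H) {A : v.integer}
    (hA : A ≠ 0) {f : v.integer[X]} (hf : f.Monic) {p : ℕ} (hp : f.natDegree = p + 1) (j : ℕ) :
    ∀ E : v.integer[X], E.natDegree ≤ p + j + 1 → A * aeval (H + S) f = aeval H E → v S ≤ 1 := by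
  have h0 : v 0 ^ 2 ≤ v H := by simp
  have key : ∀ (d : ℕ) (E : v.integer[X]), p ≤ d → E.natDegree ≤ d + 1 →
      A * aeval (H + S) f = aeval H E →
      v ((A * f.coeff (d + 1) - E.coeff (d + 1)) * H +
        (d + 1 : ℕ) * ((A * f.coeff (d + 1) : v.integer) * S)) ≤ 1 := fun d E hd hE he => by
    refine cancel_v hH (d := d) ?_
    rw [one_mul]
    convert v.map_sub_le (exp_one hH h0 hE) (cm A (exp_one hH hS (f := f) (d := d) (by omega)))
      using 2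
    simp only [add_zero, mul_zero, mul_sub, he]
    push_cast
    ring
  have sm : ∀ (d : ℕ) (a : v.integer), v ((d : ℕ) * (a * S)) < v H := fun d a =>
    (cn _ (cm _ le_rfl)).trans_lt (small hH hS)
  induction j with
  | zero =>
    intro E hE he
    have h := key p E le_rfl hE he
    have h2 : f.coeff (p + 1) = 1 := hp ▸ hf.coeff_natDegree
    rw [lead_zero hZ hH (sm _ _) h, zero_mul, zero_add, h2, mul_one] at h
    exact of_mul hZ (by exact_mod_cast hA) (of_mul hZ (by exact_mod_cast p.succ_ne_zero) h)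
  | succ j ih =>
    intro E hE he
    have h1 := lead_zero hZ hH (sm _ _) (key (p + j + 1) E (by omega) hE he)
    rw [coeff_eq_zero_of_natDegree_lt (by omega : f.natDegree < p + j + 1 + 1)] at h1
    have h2 : E.coeff (p + j + 1 + 1) = 0 := by simpa using h1
    refine ih E ?_ he
    simpa [h2] using erase_le (d := p + j + 1) hE

theorem other_bdd (hZ : ∀ u, u ≠ 0 → 1 ≤ v u) (hH : 1 < v H) (hS : v S ^ 2 ≤ v H) (hT : v T ≤ 1)
    {A B D : v.integer} (hA : A ≠ 0) {f g k : v.integer[X]} (hf : f.Monic) (hp : 0 < f.natDegree)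
    (he : A * aeval (H + S) f + B * aeval (H + T) g = D * aeval H k) : v S ≤ 1 := by
  obtain ⟨p, hp'⟩ : ∃ p, f.natDegree = p + 1 := ⟨_, (Nat.succ_pred_eq_of_pos hp).symm⟩
  refine one_bdd hZ hH hS hA hf hp' (C D * k - C B * g.comp (X + C ⟨T, hT⟩)).natDegree
    (C D * k - C B * g.comp (X + C ⟨T, hT⟩)) (by omega) ?_
  simp [aeval_comp, Algebra.algebraMap_ofSubsemiring_apply, ← he]

variable [IsDomain Z]

theorem runge (hZ : ∀ u, u ≠ 0 → 1 ≤ v u) (hH : 1 < v H) (hS : v S ^ 2 ≤ v H)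
    (hT : v T ^ 2 ≤ v H) {A B D : v.integer} (hA : A ≠ 0) (hB : B ≠ 0) (hD : D ≠ 0)
    (hAB : A + B ≠ 0) {f g k : v.integer[X]} (hf : f.Monic) (hg : g.Monic) (hk : k.Monic)
    (hf0 : 0 < f.natDegree) (hg0 : 0 < g.natDegree)
    (h3 : f.natDegree = k.natDegree → g.natDegree = k.natDegree → 3 ≤ k.natDegree)
    (he : A * aeval (H + S) f + B * aeval (H + T) g = D * aeval H k) :
    ∃ (N : v.integer) (τ : Z), N ≠ 0 ∧ Quad v τ (N * (H + S)) ∧ Quad v τ (N * (H + T)) ∧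
      Quad v τ (N * H) := by
  have line : v S ≤ 1 → v T ≤ 1 → ∃ (N : v.integer) (τ : Z), N ≠ 0 ∧ Quad v τ (N * (H + S)) ∧
      Quad v τ (N * (H + T)) ∧ Quad v τ (N * H) := fun h1 h2 =>
    ⟨1, H, one_ne_zero, ⟨0, 1, ⟨S, h1⟩, .inr one_ne_zero, by simp⟩,
      ⟨0, 1, ⟨T, h2⟩, .inr one_ne_zero, by simp⟩, 0, 1, 0, .inr one_ne_zero, by simp⟩
  have h0 : v 0 ^ 2 ≤ v H := by simp
  have A0 : (A : Z) ≠ 0 := by exact_mod_cast hA
  have B0 : (B : Z) ≠ 0 := by exact_mod_cast hB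
  have sS := small hH hS
  obtain ⟨d, hd⟩ : ∃ d, max (max f.natDegree g.natDegree) k.natDegree = d + 1 :=
    ⟨_, (Nat.succ_pred_eq_of_pos (by omega)).symm⟩
  have hco : ∀ p : v.integer[X], p.Monic → p.natDegree ≤ d + 1 →
      (p.natDegree = d + 1 ∧ p.coeff (d + 1) = 1) ∨ (p.natDegree < d + 1 ∧ p.coeff (d + 1) = 0) :=
    fun p hp hle => hle.eq_or_lt.imp (fun e => ⟨e, e ▸ hp.coeff_natDegree⟩)
      fun e => ⟨e, coeff_eq_zero_of_natDegree_lt e⟩
  have h1 : v ((A * f.coeff (d + 1) + B * g.coeff (d + 1) - D * k.coeff (d + 1) : v.integer) * H +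
      (d + 1 : ℕ) * ((A * f.coeff (d + 1) : v.integer) * S +
        (B * g.coeff (d + 1) : v.integer) * T)) ≤ 1 := by
    refine cancel_v hH (d := d) ?_
    rw [one_mul]
    convert v.map_sub_le (v.map_sub_le (cm D (exp_one hH h0 (f := k) (d := d) (by omega)))
      (cm A (exp_one hH hS (f := f) (d := d) (by omega))))
      (cm B (exp_one hH hT (f := g) (d := d) (by omega))) using 2
    simp only [add_zero, mul_sub, ← he]
    push_cast
    ring
  have h2 := lead_zero hZ hH ((cn _ le_rfl).trans_lt (v.map_add_lt ((cm _ le_rfl).trans_lt sS)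
    ((cm _ le_rfl).trans_lt (small hH hT)))) h1
  rw [h2, zero_mul, zero_add] at h1
  replace h1 := of_mul hZ (by exact_mod_cast d.succ_ne_zero) h1
  rw [ZeroMemClass.coe_eq_zero] at h2
  rcases hco f hf (by omega) with ⟨ef, cf⟩ | ⟨ef, cf⟩ <;>
    rcases hco g hg (by omega) with ⟨eg, cg⟩ | ⟨eg, cg⟩ <;>
    simp only [cf, cg, ZeroMemClass.coe_zero, mul_zero, mul_one, zero_mul, add_zero,
      zero_add] at h1 h2
  rotate_left
  · have h4 := of_mul hZ A0 h1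
    exact line h4 (other_bdd hZ hH hT h4 hB hg hg0 (by rw [add_comm]; exact he))
  · have h4 := of_mul hZ B0 h1
    exact line (other_bdd hZ hH hS h4 hA hf hf0 he) h4
  · rw [show d + 1 = k.natDegree by omega, hk.coeff_natDegree] at h2
    exact absurd (by simpa using h2) hD
  rcases hco k hk (by omega) with ⟨ek, ck⟩ | ⟨ek, ck⟩ <;> rw [ck] at h2
  swap
  · exact absurd (by simpa using h2) hAB
  obtain ⟨m, rfl⟩ : ∃ m, d = m + 2 := ⟨d - 2, by omega⟩
  obtain ⟨κ, hκ⟩ : ∃ κ : v.integer, (κ : Z) = A * S + B * T := ⟨⟨_, h1⟩, rfl⟩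
  have hst : v S ≤ 1 → _ := fun h4 => line h4 (of_mul hZ B0 (by
    simpa using v.map_sub_le h1 (cm A h4)))
  rcases le_total (v S) 1 with hz | hz
  · exact hst hz
  obtain ⟨a₂, ha₂⟩ : ∃ a : v.integer, a = (m + 3).choose 2 := ⟨_, rfl⟩
  obtain ⟨a₃, ha₃⟩ : ∃ a : v.integer, a = (m + 3).choose 3 := ⟨_, rfl⟩
  obtain ⟨lam, hlam⟩ : ∃ a : v.integer, a = B ^ 2 * ((m + 3 : ℕ) * κ + A * f.coeff (m + 2) +
    B * g.coeff (m + 2) - D * k.coeff (m + 2)) := ⟨_, rfl⟩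
  obtain ⟨c₂, hc₂⟩ : ∃ a : v.integer, a = a₂ * (A * B * (A + B)) := ⟨_, rfl⟩
  obtain ⟨c₁, hc₁⟩ : ∃ a : v.integer, a = (m + 2 : ℕ) * B ^ 2 * A *
    (f.coeff (m + 2) - g.coeff (m + 2)) - 2 * a₂ * κ * A * B := ⟨_, rfl⟩
  obtain ⟨c₃, hc₃⟩ : ∃ a : v.integer, a = a₃ * (A * B ^ 2 - A ^ 3) := ⟨_, rfl⟩
  have hc₂0 : c₂ ≠ 0 := by
    rw [hc₂, ha₂]
    exact mul_ne_zero (Nat.cast_ne_zero.2 (Nat.choose_pos (by omega)).ne')
      (mul_ne_zero (mul_ne_zero hA hB) hAB)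
  have h5 := quad_bdd hH hS (lam := lam) (c₁ := c₁) (c₂ := c₂) (c₃ := c₃) (by
    have h6 : v (lam * H ^ 2 + (c₂ * S ^ 2 + c₁ * S) * H + c₃ * S ^ 3 +
        ((a₂ * B * κ ^ 2 + (m + 2 : ℕ) * B ^ 2 * g.coeff (m + 2) * κ : v.integer) * H +
          a₃ * ((κ ^ 3 : v.integer) * 1 - (3 * κ ^ 2 * A : v.integer) * S +
            (3 * κ * A ^ 2 : v.integer) * S ^ 2))) ≤ v H := by
      refine cancel_v hH (d := m) ?_
      rw [← pow_succ']
      convert cm (B ^ 2) (v.map_sub_le (v.map_sub_le (cm D (exp_three hH h0 ek.le ck))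
        (cm A (exp_three hH hS ef.le cf))) (cm B (exp_three hH hT eg.le cg))) using 2
      have h9 : D = A + B := by linear_combination -h2
      simp only [add_zero, mul_sub, ← he]
      rw [hlam, hc₂, hc₁, hc₃, ha₂, ha₃, h9]
      push_cast [co2, co3]
      rw [hκ]
      ring
    exact (congrArg v (add_sub_cancel_right _ _).symm).trans_le <|
      v.map_sub_le h6 (v.map_add_le (cm _ le_rfl)
      (cm a₃ (v.map_add_le (v.map_sub_le (cm _ (v.map_one.trans_le hH.le)) (cm _ sS.le))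
        (cm _ ((v.map_pow S 2).trans_le hS)))))) hz
  have C0 : (c₂ : Z) ≠ 0 := by exact_mod_cast hc₂0
  by_cases hl : lam = 0
  · refine hst (le_of_mul_le_mul_right (a := v S) ?_ (zero_lt_one.trans_le hz))
    rw [one_mul, ← map_mul]
    refine of_mul hZ (pow_ne_zero 2 C0) ?_
    convert v.map_sub_le (h5.trans hz) (cm (c₁ * c₂) le_rfl) using 2
    rw [hl]
    push_cast
    ring
  obtain ⟨e, he₀⟩ : ∃ e : v.integer, (e : Z) =
    c₂ * lam * H + c₂ ^ 2 * S ^ 2 + (c₁ * c₂ - c₃ * lam) * S := ⟨⟨_, h5⟩, rfl⟩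
  have hq : -(B * c₂ ^ 2) ≠ 0 := neg_ne_zero.2 (mul_ne_zero hB (pow_ne_zero _ hc₂0))
  refine ⟨c₂ * lam * B, S, mul_ne_zero (mul_ne_zero hc₂0 hl) hB,
    ⟨_, c₂ * lam * B - B * (c₁ * c₂ - c₃ * lam), B * e, .inl hq, ?_⟩,
    ⟨_, -(c₂ * lam * A) - B * (c₁ * c₂ - c₃ * lam), B * e + c₂ * lam * κ, .inl hq, ?_⟩,
    _, -(B * (c₁ * c₂ - c₃ * lam)), B * e, .inl hq, ?_⟩ <;> push_cast
  · rw [he₀]; ring
  · rw [he₀, hκ]; ring
  · rw [he₀]; ring

omit [CharZero Z] in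
theorem Quad.desc (hZ : ∀ u, u ≠ 0 → 1 ≤ v u) {d w r : v.integer} {q x : Z} (hd : d ≠ 0)
    (hw : w ≠ 0) (h : Quad v (d * w * q + r) (d * x)) : Quad v q x := by
  obtain ⟨a, b, c, hab, h⟩ := h
  have d0 : (d : Z) ≠ 0 := by exact_mod_cast hd
  have h1 : v (x - (a * d * w ^ 2 * q ^ 2 + (2 * a * r + b) * w * q)) ≤ 1 := by
    refine of_mul hZ d0 ?_
    convert (a * r ^ 2 + b * r + c).2 using 1
    rw [Valuation.mem_integer_iff]
    congr! 2
    push_cast
    linear_combination h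
  refine ⟨a * d * w ^ 2, (2 * a * r + b) * w, ⟨_, h1⟩, ?_, by push_cast [co2]; ring⟩
  by_cases ha : a = 0
  · exact .inr (by simpa [ha, hw] using hab)
  · exact .inl (mul_ne_zero (mul_ne_zero ha hd) (pow_ne_zero _ hw))

theorem curve (hZ : ∀ u, u ≠ 0 → 1 ≤ v u)
    (hdiv : ∀ a P : Z, P ≠ 0 → ∃ q r, a = P * q + r ∧ v r ≤ v P) {x y z : Z} {α β γ : v.integer}
    (hα : α ≠ 0) (hβ : β ≠ 0) (hγ : γ ≠ 0) (hz : 1 < v z) (d1 : v (γ * x - α * z) ^ 2 ≤ v z)
    (d2 : v (γ * y - β * z) ^ 2 ≤ v z) {A B D : v.integer} (hA : A ≠ 0) (hB : B ≠ 0) (hD : D ≠ 0)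
    {f g k : v.integer[X]} (hf : f.Monic) (hg : g.Monic) (hk : k.Monic) (hf0 : 0 < f.natDegree)
    (hg0 : 0 < g.natDegree)
    (hAB : A * (α * γ) ^ g.natDegree + B * (β * γ) ^ f.natDegree ≠ 0)
    (h3 : f.natDegree = k.natDegree → g.natDegree = k.natDegree → 3 ≤ k.natDegree)
    (he : A * aeval x f + B * aeval y g = D * aeval z k) :
    ∃ τ, 1 < v τ ∧ Quad v τ x ∧ Quad v τ y ∧ Quad v τ z := by
  have c0 := mul_ne_zero hβ hγ
  have c1 := mul_ne_zero hα hγ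
  have c2 := mul_ne_zero hα hβ
  have hzH : v z ≤ v ((α * β : v.integer) * z) := of_mul hZ (by exact_mod_cast c2) le_rfl
  have sc : ∀ (p : v.integer[X]) (c : v.integer) (u : Z),
      aeval (c * u) (p.scaleRoots c) = c ^ p.natDegree * aeval u p := fun p c u =>
    scaleRoots_eval₂_mul (algebraMap v.integer Z) u c
  have e0 : ((α * β : v.integer) : Z) * z + β * (γ * x - α * z) = (β * γ : v.integer) * x := by
    push_cast; ring
  have e1 : ((α * β : v.integer) : Z) * z + α * (γ * y - β * z) = (α * γ : v.integer) * y := by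
    push_cast; ring
  obtain ⟨N, τ, hN, q0, q1, q2⟩ := runge hZ (hz.trans_le hzH)
    (S := β * (γ * x - α * z)) (T := α * (γ * y - β * z))
    (((pow_le_pow_left' (cm β le_rfl) 2).trans d1).trans hzH)
    (((pow_le_pow_left' (cm α le_rfl) 2).trans d2).trans hzH)
    (A := A * (α * γ) ^ g.natDegree * (α * β) ^ k.natDegree)
    (B := B * (β * γ) ^ f.natDegree * (α * β) ^ k.natDegree)
    (D := D * (β * γ) ^ f.natDegree * (α * γ) ^ g.natDegree)
    (mul_ne_zero (mul_ne_zero hA (pow_ne_zero _ c1)) (pow_ne_zero _ c2))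
    (mul_ne_zero (mul_ne_zero hB (pow_ne_zero _ c0)) (pow_ne_zero _ c2))
    (mul_ne_zero (mul_ne_zero hD (pow_ne_zero _ c0)) (pow_ne_zero _ c1))
    (by rw [← add_mul]; exact mul_ne_zero hAB (pow_ne_zero _ c2))
    ((monic_scaleRoots_iff (β * γ)).2 hf) ((monic_scaleRoots_iff (α * γ)).2 hg)
    ((monic_scaleRoots_iff (α * β)).2 hk) (by simpa using hf0) (by simpa using hg0)
    (by simpa using h3) (by
      rw [e0, e1, sc, sc, sc]
      push_cast
      linear_combination ((β : Z) * γ) ^ f.natDegree * ((α : Z) * γ) ^ g.natDegree *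
        ((α : Z) * β) ^ k.natDegree * he)
  rw [e0] at q0
  rw [e1] at q1
  obtain ⟨q, r, rfl, hr⟩ := hdiv τ (N * α * β * γ : v.integer)
    (by exact_mod_cast mul_ne_zero (mul_ne_zero (mul_ne_zero hN hα) hβ) hγ)
  lift r to v.integer using hr.trans (N * α * β * γ).2
  have Q2 : Quad v q z := Quad.desc hZ (mul_ne_zero hN c2) hγ (r := r)
    (by convert q2 using 1 <;> push_cast <;> ring)
  refine ⟨q, ?_, Quad.desc hZ (mul_ne_zero hN c0) hα (r := r)
    (by convert q0 using 1 <;> push_cast <;> ring), Quad.desc hZ (mul_ne_zero hN c1) hβ (r := r)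
    (by convert q1 using 1 <;> push_cast <;> ring), Q2⟩
  obtain ⟨a, b, c, -, h⟩ := Q2
  refine lt_of_not_ge fun hq => absurd hz (not_lt.2 ?_)
  rw [h]
  exact v.map_add_le (v.map_add_le (cm a (by simpa using pow_le_one' hq 2)) (cm b hq)) c.2

end Pool.Agent.Lib.MP_4ffbf9_nt.JM
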