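import Mathlib
import Pool.Agent.Lib.MP_4ffbf9_nt.JM.Runge

/-!
The parabola lemma for sequences along an ultrafilter.
-/

set_option autoImplicit false

namespace Pool.Agent.Lib.MP_4ffbf9_nt.JM

open Polynomial Filter

variable {ι : Type} {𝒰 : Ultrafilter ι}

theorem germ_val (η : ι → ℤ) (hη : ∀ n : ℕ, ∀ᶠ j in (𝒰 : Filter ι), (n : ℤ) ≤ η j) :
    ∃ (Z Γ : Type) (_ : CommRing Z) (_ : IsDomain Z) (_ : CharZero Z)
      (_ : LinearOrderedCommGroupWithZero Γ) (v : Valuation Z Γ) (φ : (ι → ℤ) →+* Z),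
      Function.Surjective φ ∧ (∀ u, φ u = 0 ↔ ∀ᶠ j in (𝒰 : Filter ι), u j = 0) ∧
        ∀ u w, v (φ u) ≤ v (φ w) ↔
          ∀ m : ℕ, ∀ᶠ j in (𝒰 : Filter ι), |u j| ^ m ≤ η j * |w j| ^ m := by
  obtain ⟨Γ, _, v, hv⟩ := exists_val (Z := Germ (𝒰 : Filter ι) ℤ) (η : Germ (𝒰 : Filter ι) ℤ)
    fun n => Germ.coe_le.2 (hη n)
  refine ⟨Germ (𝒰 : Filter ι) ℤ, Γ, inferInstance, inferInstance, inferInstance, inferInstance, v,
    Germ.coeRingHom _, fun u => u.inductionOn fun f => ⟨f, rfl⟩, fun u => Germ.coe_eq,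
    fun u w => (hv _ _).trans (forall_congr' fun m => ?_)⟩
  rw [Germ.abs_def, Germ.abs_def]
  exact Germ.coe_le

/-- `u` is smaller than every power of `η`. -/
def Sm (𝒰 : Ultrafilter ι) (η u : ι → ℤ) : Prop := ∀ m : ℕ, ∀ᶠ j in (𝒰 : Filter ι), |u j| ^ m ≤ η j

/-- `x` is a nonconstant polynomial in `τ` of degree at most two with small coefficients. -/
def QuadS (𝒰 : Ultrafilter ι) (η τ x : ι → ℤ) : Prop :=
  ∃ a b c : ι → ℤ, Sm 𝒰 η a ∧ Sm 𝒰 η b ∧ Sm 𝒰 η c ∧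
    ∀ᶠ j in (𝒰 : Filter ι), (a j ≠ 0 ∨ b j ≠ 0) ∧ x j = a j * τ j ^ 2 + b j * τ j + c j

theorem curve_seq {x y z α β γ e : ι → ℤ} (hz : ∀ n : ℕ, ∀ᶠ j in (𝒰 : Filter ι), (n : ℤ) ≤ z j)
    (he : Sm 𝒰 z e) (hα : ∀ j, 0 < α j ∧ α j ≤ e j) (hβ : ∀ j, 0 < β j ∧ β j ≤ e j)
    (hγ : ∀ j, 0 < γ j ∧ γ j ≤ e j) (d1 : ∀ j, (γ j * x j - α j * z j) ^ 2 ≤ e j * |z j|)
    (d2 : ∀ j, (γ j * y j - β j * z j) ^ 2 ≤ e j * |z j|) {A B D : ℕ} (hA : 0 < A) (hB : 0 < B)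
    (hD : 0 < D) {f g k : ℤ[X]} (hf : f.Monic) (hg : g.Monic) (hk : k.Monic)
    (hf0 : 0 < f.natDegree) (hg0 : 0 < g.natDegree)
    (h3 : f.natDegree = k.natDegree → g.natDegree = k.natDegree → 3 ≤ k.natDegree)
    (heq : ∀ᶠ j in (𝒰 : Filter ι), A * f.eval (x j) + B * g.eval (y j) = D * k.eval (z j)) :
    ∃ (τ : ι → ℤ) (m : ℕ), (∀ᶠ j in (𝒰 : Filter ι), z j < |τ j| ^ m) ∧ QuadS 𝒰 z τ x ∧
      QuadS 𝒰 z τ y ∧ QuadS 𝒰 z τ z := by
  obtain ⟨Z, Γ, _, _, _, _, v, φ, hs, h0, hv⟩ := germ_val z hz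
  have sm : ∀ u, v (φ u) ≤ 1 ↔ Sm 𝒰 z u := fun u => by
    simpa [Sm] using hv u 1
  have mono : ∀ {u w}, (∀ᶠ j in (𝒰 : Filter ι), |u j| ≤ |w j|) → v (φ u) ≤ v (φ w) := fun h =>
    (hv _ _).2 fun m => by
      filter_upwards [h, hz 1] with j h1 h2
      exact (pow_le_pow_left₀ (abs_nonneg _) h1 m).trans
        (le_mul_of_one_le_left (by positivity) (by simpa using h2))
  have ne : ∀ {u}, φ u ≠ 0 ↔ ∀ᶠ j in (𝒰 : Filter ι), u j ≠ 0 := fun {u} =>
    (h0 u).not.trans Ultrafilter.eventually_not.symm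
  have pos : ∀ {u}, (∀ j, 0 < u j) → φ u ≠ 0 := fun h => ne.2 (.of_forall fun j => (h j).ne')
  have e1 := (sm e).2 he
  have lift : ∀ {u}, (∀ j, 0 < u j ∧ u j ≤ e j) → ∃ a : v.integer, a ≠ 0 ∧ (a : Z) = φ u :=
    fun {u} h => ⟨⟨φ u, (mono (.of_forall fun j => abs_le_abs (h j).2
      (by linarith [(h j).1, (h j).2]))).trans e1⟩,
      fun h' => pos (fun j => (h j).1) (congrArg Subtype.val h'), rfl⟩
  obtain ⟨a, ha, ea⟩ := lift hα
  obtain ⟨b, hb, eb⟩ := lift hβ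
  obtain ⟨c, hc, ec⟩ := lift hγ
  have dd : ∀ {u : ι → ℤ}, (∀ j, u j ^ 2 ≤ e j * |z j|) → v (φ u) ^ 2 ≤ v (φ z) := fun {u} h => by
    rw [← map_pow, ← map_pow]
    refine (mono (w := e * z) (.of_forall fun j => ?_)).trans ?_
    · simpa [abs_mul, abs_of_pos ((hα j).1.trans_le (hα j).2)] using h j
    · rw [map_mul, map_mul]
      exact mul_le_of_le_one_left' e1
  have ev : ∀ (p : ℤ[X]) (u : ι → ℤ), aeval (φ u) (p.map (algebraMap ℤ v.integer)) =
      φ fun j => p.eval (u j) := fun p u => by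
    rw [aeval_map_algebraMap]
    refine (aeval_algHom_apply φ.toIntAlgHom u p).trans (congrArg φ (funext fun j => ?_))
    exact (aeval_algHom_apply (Pi.evalRingHom (fun _ => ℤ) j).toIntAlgHom u p).symm
  obtain ⟨τ, hτ, q0, q1, q2⟩ := curve (v := v) (x := φ x) (y := φ y) (z := φ z)
    (fun u hu => by
      obtain ⟨s, rfl⟩ := hs u
      simpa using mono (u := 1) ((ne.1 hu).mono fun j hj => Int.one_le_abs hj))
    (fun u w hw => by
      obtain ⟨s, rfl⟩ := hs u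
      obtain ⟨p, rfl⟩ := hs w
      refine ⟨φ fun j => s j / p j, φ fun j => s j % p j, ?_, mono ((ne.1 hw).mono fun j hj => ?_)⟩
      · rw [← map_mul, ← map_add]
        exact congrArg φ (funext fun j => (Int.mul_ediv_add_emod _ _).symm)
      · rw [abs_of_nonneg (Int.emod_nonneg _ hj)]
        exact (Int.emod_lt_abs _ hj).le)
    ha hb hc
    (lt_of_not_ge fun h => by
      obtain ⟨j, h1, h2⟩ := (((sm z).1 h 2).and (hz 2)).exists
      rw [sq_abs] at h1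
      push_cast at h2
      nlinarith)
    (by simpa [ea, ec] using dd (u := γ * x - α * z) d1)
    (by simpa [eb, ec] using dd (u := γ * y - β * z) d2)
    (A := A) (B := B) (D := D) (Nat.cast_ne_zero.2 hA.ne') (Nat.cast_ne_zero.2 hB.ne')
    (Nat.cast_ne_zero.2 hD.ne') (hf.map (algebraMap ℤ _)) (hg.map (algebraMap ℤ _))
    (hk.map (algebraMap ℤ _)) (by rwa [hf.natDegree_map]) (by rwa [hg.natDegree_map])
    (fun h => pos (u := A * (α * γ) ^ g.natDegree + B * (β * γ) ^ f.natDegree) (fun j => by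
        have := (hα j).1
        have := (hβ j).1
        have := (hγ j).1
        simp only [Pi.add_apply, Pi.mul_apply, Pi.pow_apply, Pi.natCast_apply]
        positivity) (by
      simpa [hf.natDegree_map, hg.natDegree_map, ea, eb, ec] using congrArg Subtype.val h))
    (by rwa [hf.natDegree_map, hg.natDegree_map, hk.natDegree_map])
    (by
      rw [ev, ev, ev, ← sub_eq_zero]
      simpa using (h0 (A * (fun j => f.eval (x j)) + B * (fun j => g.eval (y j)) -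
        D * fun j => k.eval (z j))).2 (heq.mono fun j hj => sub_eq_zero.2 hj))
  obtain ⟨t, rfl⟩ := hs τ
  have back : ∀ {u}, Quad v (φ t) (φ u) → QuadS 𝒰 z t u := by
    rintro u ⟨⟨a, ha⟩, ⟨b, hb⟩, ⟨c, hc⟩, hab, h⟩
    obtain ⟨a, rfl⟩ := hs a
    obtain ⟨b, rfl⟩ := hs b
    obtain ⟨c, rfl⟩ := hs c
    refine ⟨a, b, c, (sm a).1 ha, (sm b).1 hb, (sm c).1 hc, Eventually.and ?_ ?_⟩
    · exact Ultrafilter.eventually_or.2 (hab.imp (fun h => ne.1 fun e => h (Subtype.ext e))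
        fun h => ne.1 fun e => h (Subtype.ext e))
    · exact ((h0 (u - (a * t ^ 2 + b * t + c))).1 (by simp [h])).mono fun j hj => sub_eq_zero.1 hj
  obtain ⟨m, hm⟩ := not_forall.1 ((sm t).not.1 hτ.not_ge)
  exact ⟨t, m, (Ultrafilter.eventually_not.2 hm).mono fun j hj => not_le.1 hj, back q0, back q1,
    back q2⟩

theorem quad_poly {a b c τ H : ℤ} (hab : a ≠ 0 ∨ b ≠ 0) (hτ : τ ≠ 0) (ha : |a| ≤ H) (hb : |b| ≤ H)
    (hc : |c| ≤ H) : ∃ F : ℤ[X], 0 < F.natDegree ∧ F.natDegree ≤ 2 ∧ (∀ i, |F.coeff i| ≤ H) ∧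
      F.eval |τ| = a * τ ^ 2 + b * τ + c := by
  have hs : |τ.sign| = 1 := Int.abs_sign_of_ne_zero hτ
  refine ⟨C a * X ^ 2 + C (b * τ.sign) * X + C c, ?_, natDegree_quadratic_le, fun i => ?_, ?_⟩
  · by_cases h : a = 0
    · rw [h, C_0, zero_mul, zero_add, natDegree_linear
        (mul_ne_zero (hab.resolve_left (not_not.2 h)) (by simpa using hτ))]
      exact one_pos
    · rw [natDegree_quadratic h]
      exact two_pos
  · simp only [coeff_add, coeff_C_mul, coeff_X_pow, coeff_X, coeff_C]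
    rcases i with _ | _ | _ | i
    · simpa using hc
    · simpa [abs_mul, hs] using hb
    · simpa using ha
    · simpa using (abs_nonneg a).trans ha
  · simp only [eval_add, eval_mul, eval_C, eval_pow, eval_X, sq_abs, mul_assoc, Int.sign_mul_abs]

end Pool.Agent.Lib.MP_4ffbf9_nt.JM
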