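import Mathlib
import Pool.Agent.Lib.MP_4ffbf9_nt.JM.Large
import Pool.Agent.Lib.MP_4ffbf9_nt.JM.Seq
import Pool.Agent.Lib.MP_4ffbf9_nt.JW.Main

/-!
Bases near a rational direction of small height are bounded.
-/

set_option autoImplicit false

namespace Pool.Agent.Lib.MP_4ffbf9_nt.JM

open Finset Polynomial Filter

theorem ht_small (M : ℝ) (p K : ℕ) : ∀ᶠ b : ℕ in atTop, ∀ E : ℝ,
    E = M * (b : ℝ) ^ (1 / Real.log (Real.log (b + 2)) ^ (p + 1)) → 1 ≤ E →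
      1 ≤ Real.log (Real.log (b + 2)) ∧ M ≤ ⌈E⌉₊ ∧
        K * (1 + Real.log ⌈E⌉₊) * Real.log (Real.log (b + 2)) ^ p ≤ Real.log b := by
  have hu : Tendsto (fun b : ℕ => Real.log ((b : ℝ) + 2)) atTop atTop :=
    Real.tendsto_log_atTop.comp (tendsto_atTop_add_const_right _ _ tendsto_natCast_atTop_atTop)
  filter_upwards [hu.eventually ((Real.isLittleO_pow_log_id_atTop (n := p)).bound
      (c := 1 / (4 * (K + 1) * (2 + |Real.log M|))) (by positivity)),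
    (Real.tendsto_log_atTop.comp hu).eventually_ge_atTop (2 * K + 1), eventually_ge_atTop 2]
    with b h1 h2 h3 E hE E1
  have b2 : (2 : ℝ) ≤ b := by exact_mod_cast h3
  have K0 : (0 : ℝ) ≤ K := K.cast_nonneg
  have hu0 : 0 ≤ Real.log ((b : ℝ) + 2) := Real.log_nonneg (by linarith)
  have ht : Real.log ((b : ℝ) + 2) ≤ 2 * Real.log b := by
    simpa using Real.log_le_log (by linarith) (by nlinarith : (b : ℝ) + 2 ≤ b ^ 2)
  rw [Function.comp_apply] at h2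
  generalize Real.log ((b : ℝ) + 2) = u at *
  generalize Real.log u = l at *
  have l1 : 1 ≤ l := by linarith
  have lp : 0 < l ^ p := by positivity
  rw [Real.norm_of_nonneg lp.le, id, Real.norm_of_nonneg hu0, one_div,
    le_inv_mul_iff₀ (by positivity)] at h1
  have r1 : 1 ≤ (b : ℝ) ^ (1 / l ^ (p + 1)) := Real.one_le_rpow (by linarith) (by positivity)
  have M0 : 0 < M := (mul_pos_iff_of_pos_right (zero_lt_one.trans_le r1)).1 (by linarith)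
  have hM : M ≤ E := hE ▸ le_mul_of_one_le_right M0.le r1
  refine ⟨l1, hM.trans (Nat.le_ceil E), ?_⟩
  have h4 : Real.log ⌈E⌉₊ ≤ 1 + |Real.log M| + 1 / l ^ (p + 1) * Real.log b := by
    have h5 := Real.log_le_log (by positivity)
      (by linarith [Nat.ceil_lt_add_one (by linarith : 0 ≤ E)] : (⌈E⌉₊ : ℝ) ≤ 2 * E)
    rw [Real.log_mul two_ne_zero (by linarith)] at h5
    have h6 := congrArg Real.log hE
    rw [Real.log_mul M0.ne' (by linarith), Real.log_rpow (by linarith)] at h6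
    linarith [Real.log_two_lt_d9, le_abs_self (Real.log M)]
  have h7 : K * (1 / l ^ (p + 1) * Real.log b) * l ^ p ≤ Real.log b / 2 := by
    rw [pow_succ, show K * (1 / (l ^ p * l) * Real.log b) * l ^ p = K * Real.log b / l by
      field_simp, div_le_div_iff₀ (by linarith) two_pos]
    nlinarith [Real.log_natCast_nonneg b]
  have h8 : K * (1 + Real.log ⌈E⌉₊) * l ^ p ≤
      K * (1 + (1 + |Real.log M| + 1 / l ^ (p + 1) * Real.log b)) * l ^ p := by gcongr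
  have h9 : 0 ≤ (2 + |Real.log M|) * l ^ p := by positivity
  linarith

theorem pow_le_of_log {e b K : ℕ} {l : ℝ} {p : ℕ} (he : 0 < e) (hb : 0 < b) (hl : 1 ≤ l)
    (h : K * (1 + Real.log e) * l ^ p ≤ Real.log b) : e ^ K ≤ b := by
  have h1 := Real.log_natCast_nonneg e
  have h2 : K * Real.log e ≤ Real.log b :=
    le_trans (le_trans (by gcongr; linarith) (le_mul_of_one_le_right (by positivity)
      (one_le_pow₀ hl))) h
  rw [← Real.log_pow, Real.log_le_log_iff (by positivity) (by positivity)] at h2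
  exact_mod_cast h2

theorem win_of {J u h : ℕ} {W : ℝ} (hh : 0 < h) (hW : W ^ J * h ^ 2 ≤ (h ^ 2) ^ J)
    (hu : ((u : ℝ) - h) ^ 2 ≤ W) : Win J h u := by
  have hr : (0 : ℝ) < h := by exact_mod_cast hh
  refine le_of_pow_le_pow_left₀ two_ne_zero zero_le_one ?_
  rw [mul_pow, ← pow_mul, mul_comm J, pow_mul, sq_abs, div_sub_one hr.ne', div_pow, div_pow,
    div_mul_eq_mul_div, one_pow, div_le_one (by positivity)]
  exact le_trans (by gcongr) hW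

theorem Sm.add {ι : Type} {𝒰 : Ultrafilter ι} {η u w : ι → ℤ}
    (hη : ∀ n : ℕ, ∀ᶠ j in (𝒰 : Filter ι), (n : ℤ) ≤ η j) (hu : Sm 𝒰 η u) (hw : Sm 𝒰 η w) :
    Sm 𝒰 η fun j => |u j| + |w j| := fun m => by
  filter_upwards [hu (2 * m), hw (2 * m), hη (2 ^ (2 * m))] with j h1 h2 h3
  push_cast at h3
  have h0 : 0 ≤ η j := le_trans (by positivity) h3
  have key : ∀ {a : ℤ}, |u j| + |w j| ≤ 2 * |a| → |a| ^ (2 * m) ≤ η j →
      abs (|u j| + |w j|) ^ m ≤ η j := fun ha hb => by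
    refine le_of_pow_le_pow_left₀ two_ne_zero h0 ?_
    rw [abs_of_nonneg (by positivity), ← pow_mul, mul_comm m, sq (η j)]
    refine (pow_le_pow_left₀ (by positivity) ha _).trans ?_
    rw [mul_pow]
    exact mul_le_mul h3 hb (by positivity) h0
  rcases le_total |u j| |w j| with e | e
  · exact key (by linarith) h2
  · exact key (by linarith) h1

theorem QuadS.poly {ι : Type} {𝒰 : Ultrafilter ι} {η τ x : ι → ℤ}
    (hη : ∀ n : ℕ, ∀ᶠ j in (𝒰 : Filter ι), (n : ℤ) ≤ η j) (h : QuadS 𝒰 η τ x) :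
    ∃ H : ι → ℤ, Sm 𝒰 η H ∧ ∀ᶠ j in (𝒰 : Filter ι), τ j ≠ 0 → ∃ F : ℤ[X], 0 < F.natDegree ∧
      F.natDegree ≤ 2 ∧ (∀ i, |F.coeff i| ≤ |H j|) ∧ F.eval |τ j| = x j := by
  obtain ⟨a, b, c, ha, hb, hc, h⟩ := h
  refine ⟨_, (ha.add hη hb).add hη hc, h.mono fun j hj hτ => ?_⟩
  have := abs_nonneg (a j)
  have := abs_nonneg (b j)
  have := abs_nonneg (c j)
  rw [hj.2, abs_of_nonneg (a := |a j| + |b j|) (by linarith),
    abs_of_nonneg (a := |a j| + |b j| + |c j|) (by linarith)]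
  exact quad_poly hj.1 hτ (by linarith) (by linarith) (by linarith)

/-- The numbers attached to a solution. -/
structure Dat where
  (X Y Z nX nY nZ bX bY bZ sX sY sZ α β γ : ℕ)
  x : Fin nX → ℕ
  y : Fin nY → ℕ
  z : Fin nZ → ℕ
  E : ℝ

/-- A solution whose bases are within `E * b ^ θ` of a direction of height at most `E`. -/
structure Sol (A B D R : ℕ) (Q M θ : ℝ) (d : Dat) : Prop where
  PX : JW.Pr R M d.nX d.bX d.sX d.X d.x
  PY : JW.Pr R M d.nY d.bY d.sY d.Y d.y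
  PZ : JW.Pr R M d.nZ d.bZ d.sZ d.Z d.z
  eq : A * d.X + B * d.Y = D * d.Z
  σ : (1 + (d.sX : ℝ)) / d.nX + (1 + (d.sY : ℝ)) / d.nY + (1 + (d.sZ : ℝ)) / d.nZ ≤ 1
  gcd : PR.GcdOk Q d.X d.Y
  hE : d.E = M * (d.bZ : ℝ) ^ (1 / Real.log (Real.log (d.bZ + 2)) ^ (4 * R + 3))
  hα : 0 < d.α ∧ (d.α : ℝ) ≤ d.E
  hβ : 0 < d.β ∧ (d.β : ℝ) ≤ d.E
  hγ : 0 < d.γ ∧ (d.γ : ℝ) ≤ d.E
  d1 : |(d.γ : ℝ) * d.bX - d.α * d.bZ| ≤ d.E * (d.bZ : ℝ) ^ θ
  d2 : |(d.γ : ℝ) * d.bY - d.β * d.bZ| ≤ d.E * (d.bZ : ℝ) ^ θ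

variable {A B D : ℕ} (R : ℕ) (Q M : ℝ)

theorem bdd_finite (hA : 0 < A) (hB : 0 < B) (hD : 0 < D) (L : ℕ) : {t : ℕ × ℕ × ℕ | ∃ θ d, θ ≤ 1 ∧
    Sol A B D R Q M θ d ∧ d.bZ ≤ L ∧ t = (d.X, d.Y, d.Z)}.Finite := by
  obtain ⟨E₀, hE₀⟩ := ((Set.finite_le_nat L).image fun b : ℕ =>
    M * (b : ℝ) ^ (1 / Real.log (Real.log (b + 2)) ^ (4 * R + 3))).bddAbove
  obtain ⟨T, hT⟩ : ∃ T : ℝ, T = L + 2 * (E₀ * L) := ⟨_, rfl⟩
  refine (smooth_finite hA hB hD ⌈Q⌉₊ ⌈T + 1 + M * T⌉₊).subset ?_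
  rintro _ ⟨θ, d, hθ, S, h0, rfl⟩
  have h1 : (d.bZ : ℝ) ≤ L := by exact_mod_cast h0
  have h2 : d.E ≤ E₀ := hE₀ ⟨d.bZ, h0, S.hE.symm⟩
  have E0 : 0 ≤ d.E := (Nat.cast_nonneg _).trans S.hα.2
  have L0 : (0 : ℝ) ≤ L := by positivity
  have h3 : d.E * d.bZ ≤ E₀ * L := mul_le_mul h2 h1 (by positivity) (E0.trans h2)
  have h4 : d.E * (d.bZ : ℝ) ^ θ ≤ d.E * d.bZ :=
    mul_le_mul_of_nonneg_left (Real.rpow_le_self_of_one_le (by exact_mod_cast S.PZ.b0) hθ) E0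
  have u : ∀ {a b : ℕ}, (a : ℝ) ≤ d.E → |(d.γ : ℝ) * b - a * d.bZ| ≤ d.E * (d.bZ : ℝ) ^ θ →
      (b : ℝ) ≤ T := fun {a b} ha h => by
    have e1 : (b : ℝ) ≤ d.γ * b := by exact_mod_cast Nat.le_mul_of_pos_left b S.hγ.1
    have e2 := mul_le_mul_of_nonneg_right ha (Nat.cast_nonneg (α := ℝ) d.bZ)
    linarith [(abs_le.1 h).2]
  refine ⟨S.PX.pos, S.PY.pos, S.eq, JW.gcd_le S.gcd, fun p hp hpd => ?_⟩
  rcases hpd with h | h | h
  · exact S.PX.prime_le (u S.hα.2 S.d1) hp h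
  · exact S.PY.prime_le (u S.hβ.2 S.d2) hp h
  · exact S.PZ.prime_le (by linarith [mul_nonneg (E0.trans h2) L0]) hp h

theorem large_bound (hA : 0 < A) (hB : 0 < B) (hD : 0 < D) (J : ℕ) (hJ : 4 ≤ J) : ∃ n0 L : ℕ,
    ∀ d, Sol A B D R Q M (1 - 2 / J) d → n0 ≤ d.nX + d.nY + d.nZ → d.bZ ≤ L := by
  obtain ⟨K, n0, h0, H⟩ := large (J := J) A B D R Q hA hB hD (by omega)
  obtain ⟨L, hL⟩ := eventually_atTop.1 ((ht_small M (4 * R + 2) (K * 2 * 2 ^ (4 * R + 2))).and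
    ((ht_small M (4 * R + 2) (5 * J)).and
      ((eventually_ge_atTop (h0 + 27)).and (eventually_ge_atTop (6 ^ J)))))
  refine ⟨n0, L, ?_⟩
  rintro ⟨X, Y, Z, nX, nY, nZ, bX, bY, bZ, sX, sY, sZ, α, β, γ, x, y, z, E⟩
    ⟨PX, PY, PZ, he, -, hQ, hE, ⟨a0, a1⟩, ⟨b0, b1⟩, ⟨c0, c1⟩, d1, d2⟩ hn
  dsimp only at *
  refine le_of_not_ge fun hb => ?_
  obtain ⟨k1, k2, hj, h6⟩ := hL _ hb
  have E1 : 1 ≤ E := le_trans (by exact_mod_cast a0) a1
  obtain ⟨l1, hM, hK⟩ := k1 E hE E1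
  have hEe := Nat.le_ceil E
  have e0 : 0 < ⌈E⌉₊ := Nat.ceil_pos.2 (by linarith)
  have hp := pow_le_of_log e0 PZ.b0 l1 (k2 E hE E1).2.2
  generalize ⌈E⌉₊ = e at *
  replace a1 : α ≤ e := by exact_mod_cast a1.trans hEe
  replace b1 : β ≤ e := by exact_mod_cast b1.trans hEe
  replace c1 : γ ≤ e := by exact_mod_cast c1.trans hEe
  have e1 : (1 : ℝ) ≤ e := by exact_mod_cast e0
  have br : (1 : ℝ) ≤ bZ := by exact_mod_cast PZ.b0
  have J4 : (4 : ℝ) ≤ J := by exact_mod_cast hJ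
  have P1 : (bZ : ℝ) ≤ ((bZ : ℝ) ^ (1 - 2 / (J : ℝ))) ^ 2 := by
    rw [← Real.rpow_mul_natCast (by linarith)]
    refine Real.self_le_rpow_of_one_le br ?_
    have : 2 / (J : ℝ) ≤ 2 / 4 := by gcongr
    push_cast
    linarith
  have P2 : ((bZ : ℝ) ^ (1 - 2 / (J : ℝ))) ^ J = bZ ^ (J - 2) := by
    rw [← Real.rpow_mul_natCast (by linarith), ← Real.rpow_natCast, Nat.cast_sub (by omega)]
    congr 1
    field_simp
    rfl
  have P0 : 0 < (bZ : ℝ) ^ (1 - 2 / (J : ℝ)) := by positivity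
  generalize (bZ : ℝ) ^ (1 - 2 / (J : ℝ)) = P at *
  obtain ⟨h, hh⟩ : ∃ h, h = α * β * bZ := ⟨_, rfl⟩
  have hbh : bZ ≤ h := hh ▸ Nat.le_mul_of_pos_left _ (by positivity)
  have hbr : (bZ : ℝ) ≤ h := by exact_mod_cast hbh
  have hr : (0 : ℝ) < h := by linarith
  have hW : (6 * (e : ℝ) ^ 5 * P ^ 2) ^ J * h ^ 2 ≤ (h ^ 2) ^ J := by
    obtain ⟨i, rfl⟩ := Nat.exists_eq_add_of_le (by omega : 2 ≤ J)
    have q1 : (6 : ℝ) ^ (2 + i) ≤ h := by exact_mod_cast h6.trans hbh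
    have q2 : ((e : ℝ) ^ 5) ^ (2 + i) ≤ h := by rw [← pow_mul]; exact_mod_cast hp.trans hbh
    rw [mul_pow, mul_pow, ← pow_mul P, mul_comm 2, pow_mul P, P2, Nat.add_sub_cancel_left]
    calc _ ≤ (h : ℝ) * h * (h ^ i) ^ 2 * h ^ 2 := by gcongr
      _ = _ := by ring
  have hW1 : 6 * (e : ℝ) ^ 5 * P ^ 2 ≤ h ^ 2 := le_of_pow_le_pow_left₀ (n := J) (by omega)
    (by positivity) ((le_mul_of_one_le_right (by positivity) (one_le_pow₀ (by linarith))).trans hW)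
  have e45 : (e : ℝ) ^ 4 * P ^ 2 ≤ e ^ 5 * P ^ 2 := by gcongr; norm_num
  have hM1 : 4 * ((e : ℝ) ^ 4 * P ^ 2 / h) ≤ h := by
    rw [← mul_div_assoc, div_le_iff₀ hr]
    nlinarith [(by positivity : 0 ≤ (e : ℝ) ^ 4 * P ^ 2)]
  have sc : ∀ {a : ℕ} {u : ℝ}, a ≤ e → |u| ≤ E * P → (a * u) ^ 2 ≤ e ^ 4 * P ^ 2 / h * h :=
    fun {a u} ha hu => by
      rw [div_mul_cancel₀ _ hr.ne', mul_pow, ← sq_abs u]
      calc _ ≤ (e : ℝ) ^ 2 * (e * P) ^ 2 := by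
            gcongr
            exact hu.trans (by gcongr)
        _ = _ := by ring
  have u : ∀ {a b : ℕ}, a ≤ e → b ≤ e → 4 * (a * b : ℕ) * M + 2 * ((e : ℝ) ^ 4 * P ^ 2 / h) ≤
      6 * e ^ 5 * P ^ 2 / h := fun {a b} ha hb => by
    have M0 := PX.M0
    have : (a * b : ℕ) * M * h ≤ (e * e : ℕ) * (e : ℝ) * (e * e * P ^ 2) := by
      gcongr
      rw [hh]
      push_cast
      gcongr
    rw [le_div_iff₀ hr, add_mul, mul_assoc 2, div_mul_cancel₀ _ hr.ne']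
    push_cast at this ⊢
    linarith
  have lg : ∀ {a b : ℕ}, 0 < a → 0 < b → a ≤ e → b ≤ e →
      0 < a * b ∧ 1 + Real.log (a * b : ℕ) ≤ 2 * (1 + Real.log e) := fun {a b} ha hb h1 h2 => by
    have := Real.log_le_log (by positivity)
      (by rw [sq]; exact_mod_cast Nat.mul_le_mul h1 h2 : ((a * b : ℕ) : ℝ) ≤ (e : ℝ) ^ 2)
    rw [Real.log_pow] at this
    exact ⟨by positivity, by push_cast at this ⊢; linarith⟩
  obtain ⟨v0, m0, s0, p0, u0⟩ := PX.group (c := β * γ) (h := h) (by omega) hM1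
    (by convert sc b1 d1 using 2; rw [hh]; push_cast; ring) (u b1 c1)
  obtain ⟨v1, m1, s1, p1, u1⟩ := PY.group (c := α * γ) (h := h) (by omega) hM1
    (by convert sc a1 d2 using 2; rw [hh]; push_cast; ring) (u a1 c1)
  obtain ⟨v2, m2, s2, p2, u2⟩ := PZ.group (c := α * β) (h := h) (by omega) hM1
    (by rw [← hh, sub_self, zero_pow two_ne_zero]; positivity) (u a1 b1)
  rw [div_mul_cancel₀ _ hr.ne'] at u0 u1 u2
  refine H h (2 * (1 + Real.log e)) ![β * γ, α * γ, α * β] ![v0, v1, v2] ![m0, m1, m2]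
    ![nX, nY, nZ] (fun k => ?_) hn (by omega) (fun k => ?_) ?_
    (fun k i => win_of (by omega) hW ?_) (by rwa [← p0, ← p1] at hQ)
    (by rwa [← p0, ← p1, ← p2] at he)
  · fin_cases k
    exacts [s0, s1, s2]
  · fin_cases k
    exacts [lg b0 c0 b1 c1, lg a0 c0 a1 c1, lg a0 b0 a1 b1]
  · have h1 : h ≤ (bZ + 2) ^ 2 := by
      have : α * β ≤ bZ := (Nat.mul_le_mul a1 b1).trans (le_trans (by
        rw [← sq]; exact Nat.pow_le_pow_right e0 (by omega)) hp)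
      rw [hh, sq]
      exact Nat.mul_le_mul (by omega) (by omega)
    have h2 := Real.log_le_log hr (by exact_mod_cast h1 : (h : ℝ) ≤ (bZ + 2) ^ 2)
    have h3 := three_le_log (by omega : 27 ≤ h)
    have h4 := Real.log_le_log (by linarith) h2
    rw [Real.log_pow] at h2 h4
    rw [Real.log_mul (by norm_num) (by push_cast at h2; linarith), Nat.cast_ofNat] at h4
    refine le_trans ?_ (hK.trans (Real.log_le_log (by linarith) hbr))
    have h5 := Real.log_nonneg (by linarith : 1 ≤ Real.log h)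
    have h6 := Real.log_nonneg e1
    calc _ ≤ K * (2 * (1 + Real.log e)) * (2 * Real.log (Real.log (bZ + 2))) ^ (4 * R + 2) := by
          gcongr
          linarith [Real.log_two_lt_d9]
      _ = _ := by push_cast; ring
  · fin_cases k
    exacts [u0 i, u1 i, u2 i]

theorem small_bound (hA : 0 < A) (hB : 0 < B) (hD : 0 < D) (n0 : ℕ) : ∃ L : ℕ,
    ∀ d, Sol A B D R Q M (1 / 2) d → d.nX + d.nY + d.nZ < n0 → d.bZ ≤ L := by
  by_contra hcon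
  push Not at hcon
  choose d S deg hb using hcon
  have PX := fun j => (S j).PX
  have PY := fun j => (S j).PY
  have PZ := fun j => (S j).PZ
  obtain ⟨e, hee⟩ : ∃ e : ℕ → ℕ, ∀ j, e j = ⌈(d j).E⌉₊ := ⟨_, fun _ => rfl⟩
  have hEe : ∀ j, (d j).E ≤ e j := fun j => hee j ▸ Nat.le_ceil _
  have nat : ∀ {a : ℕ} (j), 0 < a ∧ (a : ℝ) ≤ (d j).E → (0 : ℤ) < a ∧ (a : ℤ) ≤ (e j ^ 2 : ℕ) :=
    fun j h => ⟨by exact_mod_cast h.1, Int.ofNat_le.2
      ((by exact_mod_cast h.2.trans (hEe j) : _ ≤ e j).trans (Nat.le_self_pow two_ne_zero _))⟩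
  have E1 : ∀ j, 1 ≤ (d j).E := fun j => le_trans (by exact_mod_cast (S j).hα.1) (S j).hα.2
  have sq : ∀ {u : ℤ} (j), |(u : ℝ)| ≤ (d j).E * ((d j).bZ : ℝ) ^ (1 / 2 : ℝ) →
      u ^ 2 ≤ (e j ^ 2 : ℕ) * |((d j).bZ : ℤ)| := fun {u} j h => by
    have h1 := pow_le_pow_left₀ (abs_nonneg _) (h.trans
      (mul_le_mul_of_nonneg_right (hEe j) (by positivity))) 2
    rw [sq_abs, mul_pow, ← Real.sqrt_eq_rpow, Real.sq_sqrt (by positivity)] at h1
    rw [Nat.abs_cast]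
    exact_mod_cast h1
  let 𝒰 : Ultrafilter ℕ := hyperfilter ℕ
  have big : ∀ T, ∀ᶠ j in (𝒰 : Filter ℕ), T < (d j).bZ := fun T =>
    ((eventually_ge_atTop T).filter_mono Nat.hyperfilter_le_atTop).mono fun j hj =>
      hj.trans_lt (hb j)
  have pw : ∀ K : ℕ, ∀ᶠ j in (𝒰 : Filter ℕ), e j ^ K ≤ (d j).bZ := fun K =>
    ((tendsto_atTop.2 fun T => (big T).mono fun _ => le_of_lt).eventually
      (ht_small M (4 * R + 2) K)).mono fun j hj => by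
        obtain ⟨h1, -, h2⟩ := hj _ (S j).hE (E1 j)
        exact hee j ▸ pow_le_of_log (Nat.ceil_pos.2 (by linarith [E1 j])) (PZ j).b0 h1 h2
  have sf := fun j => JW.sigma_facts (PX j).n0 (PY j).n0 (PZ j).n0 (S j).σ
  obtain ⟨f, hf, ef⟩ := JW.poly_of 1 n0 PX (𝒰 := 𝒰)
    (.of_forall fun j => by have := sf j; have := deg j; omega)
  obtain ⟨g, hg, eg⟩ := JW.poly_of 1 n0 PY (𝒰 := 𝒰)
    (.of_forall fun j => by have := sf j; have := deg j; omega)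
  obtain ⟨k, hk, ek⟩ := JW.poly_of 1 n0 PZ (𝒰 := 𝒰)
    (.of_forall fun j => by have := sf j; have := deg j; omega)
  simp only [Nat.cast_one, one_mul, one_pow] at ef eg ek
  obtain ⟨j0, i0, i1, i2⟩ := (ef.and (eg.and ek)).exists
  have hη : ∀ n : ℕ, ∀ᶠ j in (𝒰 : Filter ℕ), (n : ℤ) ≤ (d j).bZ := fun n =>
    (big n).mono fun j hj => by exact_mod_cast hj.le
  obtain ⟨τ, m, hτ, q0, q1, q2⟩ := curve_seq (𝒰 := 𝒰) (x := fun j => (d j).bX) (y := fun j => (d j).bY)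
    (z := fun j => (d j).bZ) (α := fun j => (d j).α) (β := fun j => (d j).β) (γ := fun j => (d j).γ)
    (e := fun j => (e j ^ 2 : ℕ)) hη
    (fun m => (pw (2 * m)).mono fun j hj => by
      simp only [Nat.abs_cast]
      exact_mod_cast (pow_mul _ _ _).symm.trans_le hj)
    (fun j => nat j (S j).hα) (fun j => nat j (S j).hβ) (fun j => nat j (S j).hγ)
    (fun j => sq j (by exact_mod_cast (S j).d1)) (fun j => sq j (by exact_mod_cast (S j).d2))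
    hA hB hD hf hg hk
    (i0.1 ▸ (PX j0).n0) (i1.1 ▸ (PY j0).n0) (i0.1 ▸ i1.1 ▸ i2.1 ▸ (sf j0).2.2.2)
    ((ef.and (eg.and ek)).mono fun j ⟨e0, e1, e2⟩ => by
      rw [e0.2, e1.2, e2.2]
      exact_mod_cast (S j).eq)
  obtain ⟨H0, s0, q0⟩ := q0.poly hη
  obtain ⟨H1, s1, q1⟩ := q1.poly hη
  obtain ⟨H2, s2, q2⟩ := q2.poly hη
  obtain ⟨T, hT⟩ : ∃ T, T = (6 * (A + B + D) ^ 3 * ((A + B) * (⌈Q⌉₊ + 1) * D)) ^ 2 := ⟨_, rfl⟩
  have s3 : Sm 𝒰 (fun j => (d j).bZ) fun _ => (n0 + T + 2 : ℕ) := fun m =>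
    (hη ((n0 + T + 2) ^ m)).mono fun j hj => by simp only [Nat.abs_cast]; exact_mod_cast hj
  obtain ⟨j, ⟨hd, t0, t1⟩, ⟨F, f0, f1, f2, f3⟩, ⟨G, g0, g1, g2, g3⟩, k'⟩ :
      ∃ j, ((d j).nX + (d j).nY + (d j).nZ < n0 ∧ ((d j).bZ : ℤ) < |τ j| ^ m ∧ _) ∧ _ ∧ _ ∧ _ := by
    obtain ⟨j, h1, h2, h3, h4, h5, h6⟩ := ((Eventually.of_forall deg).and (hτ.and ((((s0.add hη s1).add hη
      (s2.add hη s3)) (30000 * (6 * (1 + n0)) * m)).and (q0.and (q1.and q2))))).exists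
    have hτ0 : τ j ≠ 0 := fun h => by
      have := (PZ j).b0
      rw [h, abs_zero] at h2
      have := h2.trans_le (pow_le_one₀ le_rfl zero_le_one)
      omega
    exact ⟨j, ⟨h1, h2, h3⟩, h4 hτ0, h5 hτ0, h6 hτ0⟩
  obtain ⟨K', k0, k1, k2, k3⟩ := k'
  obtain ⟨H, hH⟩ : ∃ H : ℕ, (H : ℤ) = |H0 j| + |H1 j| + (|H2 j| + (n0 + T + 2 : ℕ)) :=
    ⟨_, Int.toNat_of_nonneg (by positivity)⟩
  have a0 := abs_nonneg (H0 j)
  have a1 := abs_nonneg (H1 j)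
  have a2 := abs_nonneg (H2 j)
  beta_reduce at t1
  rw [Nat.abs_cast, abs_of_nonneg (a := |H0 j| + |H1 j|) (by positivity),
    abs_of_nonneg (a := |H2 j| + _) (by positivity), ← hH, Nat.abs_cast, pow_mul] at t1
  have t2 := lt_of_pow_lt_pow_left₀ _ (abs_nonneg _) (t1.trans_lt t0)
  have H1' : (1 : ℤ) ≤ H := by omega
  obtain ⟨r1, r2, r3, -⟩ := sf j
  refine large_false (H := H) hA hB hD (S j).eq (JW.gcd_le (S j).gcd) _ _ _ (PX j).n0 (PY j).n0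
    (PZ j).n0 (PX j).b0 (PY j).b0 (PZ j).b0 (PX j).mem (PY j).mem (PZ j).mem (PX j).prod
    (PY j).prod (PZ j).prod (S j).σ F G K' f0 g0 k0 f3 g3 k3 (by omega)
    (fun i => ⟨(f2 i).trans (by omega), (g2 i).trans (by omega), (k2 i).trans (by omega)⟩)
    (by omega) (by omega) (by omega) ?_ ?_
  · refine (pow_le_pow_right₀ H1' (Nat.mul_le_mul_left _ ?_)).trans
      (t2.le.trans (Int.le_self_sq _))
    calc _ ≤ (1 + n0) * 2 + (1 + n0) * 2 + (1 + n0) * 2 := by gcongr <;> omega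
      _ = _ := by ring
  · have h1 : (T : ℤ) < |τ j| :=
      lt_of_le_of_lt ((by omega : (T : ℤ) ≤ H).trans (le_self_pow₀ H1' (by omega))) t2
    rw [hT] at h1
    exact_mod_cast h1

theorem final (hA : 0 < A) (hB : 0 < B) (hD : 0 < D) : ∃ θ : ℕ → ℝ, (∀ n, 1 / 2 ≤ θ n) ∧
    Tendsto θ atTop (nhds 1) ∧
      {t : ℕ × ℕ × ℕ | ∃ d, Sol A B D R Q M (θ d.nZ) d ∧ t = (d.X, d.Y, d.Z)}.Finite := by
  have le1 : ∀ k : ℕ, 1 - 2 / ((4 + k : ℕ) : ℝ) ≤ 1 := fun k => sub_le_self _ (by positivity)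
  have key : ∀ k : ℕ, ∃ T, ∀ d, Sol A B D R Q M (1 - 2 / (4 + k : ℕ)) d → T ≤ d.nZ → d.bZ ≤ 1 :=
    fun k => by
      obtain ⟨n0, L, H⟩ := large_bound R Q M hA hB hD (4 + k) (by omega)
      obtain ⟨W, hW⟩ := ((bdd_finite R Q M hA hB hD L).image fun t => t.2.2).bddAbove
      refine ⟨n0 + W, fun d S hT => le_of_not_gt fun h2 => ?_⟩
      have h1 : d.Z ≤ W := hW ⟨_, ⟨_, d, le1 k, S, H d S (by omega), rfl⟩, rfl⟩
      have h3 : 2 ^ d.nZ ≤ d.Z := by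
        simpa [S.PZ.prod] using pow_card_le_prod univ d.z 2 fun i _ => h2.trans_le (S.PZ.mem i).1
      have := d.nZ.lt_two_pow_self
      omega
  choose T hT using key
  obtain ⟨n0, L, H⟩ := large_bound R Q M hA hB hD 4 le_rfl
  obtain ⟨L', H'⟩ := small_bound R Q M hA hB hD n0
  refine ⟨fun n => 1 - 2 / (4 + Nat.findGreatest (fun k => T k ≤ n) n : ℕ), fun n => ?_, ?_,
    (bdd_finite R Q M hA hB hD (L + L' + 1)).subset ?_⟩
  · have : 2 / ((4 + Nat.findGreatest (fun k => T k ≤ n) n : ℕ) : ℝ) ≤ 2 / 4 := by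
      gcongr
      exact_mod_cast Nat.le_add_right _ _
    linarith
  · have h1 : Tendsto (fun n => 4 + Nat.findGreatest (fun k => T k ≤ n) n) atTop atTop :=
      tendsto_atTop.2 fun k => (eventually_ge_atTop (k + T k)).mono fun n hn =>
        (Nat.le_findGreatest (P := fun k => T k ≤ n) (by omega) (by omega)).trans
          (Nat.le_add_left _ _)
    simpa using tendsto_const_nhds.sub
      ((tendsto_natCast_atTop_atTop.comp h1).const_div_atTop (2 : ℝ))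
  · rintro _ ⟨d, S, rfl⟩
    refine ⟨_, d, le1 _, S, ?_, rfl⟩
    by_cases h : Nat.findGreatest (fun k => T k ≤ d.nZ) d.nZ = 0
    · simp only [h] at S
      rcases le_or_gt n0 (d.nX + d.nY + d.nZ) with e | e
      · have := H d S e
        omega
      · have := H' d (by convert S using 1; norm_num) e
        omega
    · have := hT _ d S (Nat.findGreatest_of_ne_zero (P := fun k => T k ≤ d.nZ) rfl h)
      omega

end Pool.Agent.Lib.MP_4ffbf9_nt.JM
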